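import Pool.Agent.Run7.h672.CC.F
import Pool.Agent.N794.CG.Flex

/-!
# The characteristic functions of the concatenations of random words decay

The argument of `Pool.Agent.N794.CG.Flex` (starting library), with the decay of the exponential sums proved here.
-/

set_option autoImplicit false

namespace Pool.Agent.Run7.h672.CC
open Finset
open Pool.Agent.TH872
open Pool.Agent.H807R2.Dav
open Pool.Agent.W93.AU
open Pool.Agent.W93.DG
open Pool.Agent.N625.PT (Gq actL gq_of)
open Pool.Agent.R459.Eq (Decays)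
open Pool.Agent.N794.CG (gd_of_far)

variable {b : ℕ} {q : ℕ → ℕ → ℝ}

/-- exponential decay of the exponential sums in the number of the good places -/
theorem char_pow (hb : 2 ≤ b) {L : ℕ} (hDec : Dec b q L) :
    ∃ μ C : ℝ, 0 < μ ∧ μ < 1 ∧ 1 ≤ C ∧ ∀ (k : ℕ) (p : ℕ → ℝ), WordLaw b q k p → ∀ (θ : ℝ) (r : ℕ),
      r + L ≤ Mir.farCount b (b.factorial * (b ^ L).factorial) k θ →
      ‖∑ v ∈ range (b ^ k), (p v : ℂ) * ee (v * θ)‖ ≤ C * μ ^ r := by
  classical
  have hB2 : (2 : ℝ) ≤ b := by exact_mod_cast hb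
  have hF1 : (1 : ℝ) ≤ (b.factorial : ℝ) := by exact_mod_cast b.factorial_pos
  obtain ⟨c, hc⟩ : ∃ c, c = 4 * (1 / ((b : ℝ) ^ 2 * (b.factorial : ℝ))) ^ 2 := ⟨_, rfl⟩
  have hc0 : 0 < c := by rw [hc]; positivity
  have hc1 : c ≤ 1 / 4 := by
    rw [hc]
    have e1 : (4 : ℝ) ≤ (b : ℝ) ^ 2 * (b.factorial : ℝ) := by nlinarith
    have e2 : 1 / ((b : ℝ) ^ 2 * (b.factorial : ℝ)) ≤ 1 / 4 := one_div_le_one_div_of_le (by norm_num) e1
    have e3 : 0 ≤ 1 / ((b : ℝ) ^ 2 * (b.factorial : ℝ)) := by positivity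
    nlinarith
  obtain ⟨M, hM⟩ : ∃ M, M = (b ^ L).factorial := ⟨_, rfl⟩
  have hM1 : (1 : ℝ) ≤ M := by rw [hM]; exact_mod_cast Nat.factorial_pos _
  obtain ⟨c', hc'⟩ : ∃ c', c' = c / (2 * (M : ℝ) ^ 2) := ⟨_, rfl⟩
  have hc'0 : 0 < c' := by rw [hc']; positivity
  have hc'c : c' ≤ c := by
    rw [hc']
    apply div_le_self hc0.le
    nlinarith
  obtain ⟨μ, C, hμ0, hμ1, hC, Hch, _⟩ := hDec c' hc'0 (by linarith)
  refine ⟨μ, C, hμ0, hμ1, hC, fun k p hp θ r hr => ?_⟩
  obtain ⟨g, hg⟩ : ∃ g : ℕ → Prop, g = fun j => Gq b L c' ((b : ℝ) ^ j * θ) := ⟨_, rfl⟩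
  have hact : r ≤ actL g L k := by
    have h1 : Mir.farCount b (b.factorial * (b ^ L).factorial) k θ ≤ actL g L k + L := by
      unfold Mir.farCount actL
      have h2 : (range k).filter (fun j => Mir.Far (1 / (b : ℝ) ^ 2) (((b.factorial * (b ^ L).factorial : ℕ) : ℝ) * ((b : ℝ) ^ j * θ))) ⊆
          (range k).filter (fun j => j + L ≤ k ∧ g j) ∪ Ico (k - L) k := by
        intro j hj
        rw [mem_filter, mem_range] at hj
        rw [mem_union, mem_filter, mem_range, mem_Ico]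
        by_cases h : j + L ≤ k
        · left
          refine ⟨hj.1, h, ?_⟩
          rw [hg]
          simp only
          rw [hc', hM]
          apply gq_of b L hb c hc0.le (by linarith)
          rw [hc]
          apply gd_of_far b hb
          have e1 : (b.factorial : ℝ) * ((((b ^ L).factorial : ℕ) : ℝ) * ((b : ℝ) ^ j * θ)) =
              ((b.factorial * (b ^ L).factorial : ℕ) : ℝ) * ((b : ℝ) ^ j * θ) := by
            push_cast
            ring
          rw [e1]
          exact hj.2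
        · right
          omega
      refine le_trans ?_ ((card_le_card h2).trans ((card_union_le _ _).trans ?_))
      · apply le_of_eq
        congr!
      · rw [Nat.card_Ico]
        omega
    omega
  have hZ := Hch k p hp θ g (fun j hj => by rw [hg] at hj; exact hj)
  refine hZ.trans ?_
  apply mul_le_mul_of_nonneg_left _ (by linarith)
  exact pow_le_pow_of_le_one hμ0.le hμ1.le hact

/-- **the concatenations of random words**: the characteristic function decays -/
theorem word_decays (hW : Words b q) :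
    ∃ (F A : ℕ) (γ : ℝ), 1 ≤ F ∧ 0 < γ ∧ γ < 1 ∧ ∀ (k : ℕ) (p : ℕ → ℝ), WordLaw b q k p → ∀ κ c : ℤ,
      Decays b F A k γ κ (range (b ^ k)) p (fun v => c + κ * (v : ℕ)) := by
  obtain ⟨L, _, hDec⟩ := exists_dec hW
  have hb := hW.two
  obtain ⟨μ, C, hμ0, hμ1, hC, H⟩ := char_pow hb hDec
  obtain ⟨t, ht⟩ := exists_pow_lt_of_lt_one (show (0 : ℝ) < 1 / C by positivity) hμ1
  have ht' : C * μ ^ t ≤ 1 := by
    rw [lt_div_iff₀ (by linarith)] at ht
    linarith
  refine ⟨b.factorial * (b ^ L).factorial, L + t + 1, μ, Nat.mul_pos (Nat.factorial_pos _) (Nat.factorial_pos _), hμ0, hμ1,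
    fun k p hp κ c => ⟨fun v _ => law_nonneg hW hp v, law_sum hp, fun θ N hfar _ => ?_⟩⟩
  have e1 : ∑ i ∈ range (b ^ k), (p i : ℂ) * ee (((c + κ * (i : ℕ) : ℤ) : ℝ) * θ) =
      ee ((c : ℝ) * θ) * ∑ v ∈ range (b ^ k), (p v : ℂ) * ee (v * ((κ : ℝ) * θ)) := by
    rw [mul_sum]
    refine sum_congr rfl fun v _ => ?_
    have e2 : (((c + κ * (v : ℕ) : ℤ) : ℝ) * θ) = (c : ℝ) * θ + v * ((κ : ℝ) * θ) := by
      push_cast
      ring
    rw [e2, ee_add]
    ring
  rw [e1, norm_mul, norm_ee, one_mul]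
  rcases Nat.eq_zero_or_pos N with h0 | h0
  · rw [h0, pow_zero, ← law_sum hp]
    refine (norm_sum_le _ _).trans (le_of_eq ?_)
    apply sum_congr rfl
    intro v _
    rw [norm_mul, norm_ee, mul_one, Complex.norm_real, Real.norm_eq_abs, abs_of_nonneg (law_nonneg hW hp v)]
  · have hr : (t + 1) * N + L ≤ Mir.farCount b (b.factorial * (b ^ L).factorial) k ((κ : ℝ) * θ) := by
      refine le_trans ?_ hfar
      nlinarith
    refine (H k p hp ((κ : ℝ) * θ) ((t + 1) * N) hr).trans ?_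
    have e3 : μ ^ ((t + 1) * N) = (μ ^ t) ^ N * μ ^ N := by rw [← pow_mul, ← pow_add]; congr 1; ring
    have e4 : (μ ^ t) ^ N ≤ μ ^ t := by
      apply pow_le_of_le_one (by positivity) (pow_le_one₀ hμ0.le hμ1.le) (by omega)
    have e5 : 0 ≤ μ ^ N := by positivity
    calc C * μ ^ ((t + 1) * N) = (C * (μ ^ t) ^ N) * μ ^ N := by rw [e3]; ring
      _ ≤ (C * μ ^ t) * μ ^ N := mul_le_mul_of_nonneg_right (mul_le_mul_of_nonneg_left e4 (by linarith)) e5
      _ ≤ 1 * μ ^ N := mul_le_mul_of_nonneg_right ht' e5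
      _ = μ ^ N := one_mul _

end Pool.Agent.Run7.h672.CC
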