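import Pool.Agent.Run7.h672.CC.E
import Pool.Agent.N625.PT.C

set_option autoImplicit false

/-! Concatenations of random words: the law and the class. -/

namespace Pool.Agent.Run7.h672.CC
open Finset
open Pool.Agent.H807R2.Dav
open Pool.Agent.W93.AU
open Pool.Agent.W93.DG
open Pool.Agent.TH872.Mir (pow_log' room)
open Pool.Agent.N625.DY (Cls ClsV)
open Pool.Agent.N625.PT (Gq actL gq_of)

variable {b : ℕ} {q : ℕ → ℕ → ℝ}

/-- the decay of the exponential sums and of the probabilities of the beginnings, for blocks of `L` digits -/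
def Dec (b : ℕ) (q : ℕ → ℕ → ℝ) (L : ℕ) : Prop := ∀ c : ℝ, 0 < c → c ≤ 1 → ∃ μ C : ℝ, 0 < μ ∧ μ < 1 ∧ 1 ≤ C ∧
    (∀ (k : ℕ) (p : ℕ → ℝ), WordLaw b q k p → ∀ (θ : ℝ) (g : ℕ → Prop) [DecidablePred g], (∀ j, g j → Gq b L c ((b : ℝ) ^ j * θ)) →
      ‖∑ v ∈ range (b ^ k), (p v : ℂ) * ee (v * θ)‖ ≤ C * μ ^ actL g L k) ∧
    (∀ (k : ℕ) (p : ℕ → ℝ), WordLaw b q k p → ∀ i ≤ k, ∀ P < b ^ (k - i),
      ∑ v ∈ range (b ^ k), (if v / b ^ i = P then p v else 0) ≤ C * μ ^ (k - i))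

lemma exists_dec (hW : Words b q) : ∃ L : ℕ, 1 ≤ L ∧ Dec b q L := word_char hW

/-- the exponential sums are small -/
theorem char_small (hb : 2 ≤ b) {L : ℕ} (hL : 1 ≤ L) (hD : Dec b q L) (κ : ℤ) (τ V : ℕ) :
    ∃ D K₀ : ℕ, ∀ K : ℕ, K₀ ≤ K → ∀ m e, K = m + e → e ≤ τ * (Nat.log b K + 1) → ∀ p, WordLaw b q m p →
    ∀ t, D * (Nat.log b K + 1) ≤ ne b 0 K ((Pool.Agent.N625.PT.FF b L κ * t) % b ^ (K + 1)) →
    ‖∑ v ∈ range (b ^ m), (p v : ℂ) * ee (v * ((κ : ℝ) * ((t : ℝ) / ((b ^ (K + 1) : ℕ) : ℝ))))‖ ≤ 1 / (K : ℝ) ^ V := by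
  classical
  have hB2 : (2 : ℝ) ≤ b := by exact_mod_cast hb
  have hF1 : (1 : ℝ) ≤ (b.factorial : ℝ) := by exact_mod_cast b.factorial_pos
  obtain ⟨c, hc⟩ : ∃ c, c = 4 * (1 / ((b : ℝ) ^ 2 * (b.factorial : ℝ))) ^ 2 := ⟨_, rfl⟩
  have hc0 : 0 < c := by rw [hc]; positivity
  have hc1 : c ≤ 1 / 4 := by
    rw [hc]
    have e1 : (4 : ℝ) ≤ (b : ℝ) ^ 2 * (b.factorial : ℝ) := by nlinarith
    have e2 : 1 / ((b : ℝ) ^ 2 * (b.factorial : ℝ)) ≤ 1 / 4 := one_div_le_one_div_of_le (by norm_num) e1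
    have e3 : 0 ≤ 1 / ((b : ℝ) ^ 2 * (b.factorial : ℝ)) := by positivity
    nlinarith
  obtain ⟨M, hM⟩ : ∃ M, M = (b ^ L).factorial := ⟨_, rfl⟩
  have hM1 : (1 : ℝ) ≤ M := by rw [hM]; exact_mod_cast Nat.factorial_pos _
  obtain ⟨c', hc'⟩ : ∃ c', c' = c / (2 * (M : ℝ) ^ 2) := ⟨_, rfl⟩
  have hc'0 : 0 < c' := by rw [hc']; positivity
  have hc'c : c' ≤ c := by
    rw [hc']
    apply div_le_self hc0.le
    nlinarith
  obtain ⟨μ, C, hμ0, hμ1, hC, Hch, _⟩ := hD c' hc'0 (by linarith)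
  obtain ⟨D', hD'⟩ := exists_pow_lt_of_lt_one (show 0 < (1 / (b : ℝ)) ^ (V + 1) by positivity) hμ1
  obtain ⟨K₁, hK₁⟩ := exists_nat_ge C
  refine ⟨D' + τ + L, K₁ + 1, fun K hK m e hm heτ p hp t ht => ?_⟩
  obtain ⟨θ, hθ⟩ : ∃ θ, θ = (κ : ℝ) * ((t : ℝ) / ((b ^ (K + 1) : ℕ) : ℝ)) := ⟨_, rfl⟩
  obtain ⟨Lg, hLg⟩ : ∃ Lg, Lg = Nat.log b K + 1 := ⟨_, rfl⟩
  have hLg1 : 1 ≤ Lg := by omega
  rw [← hθ]
  have hgc := gc_ge b ((((b ^ L).factorial : ℕ) : ℤ) * κ) t K m e (L - 1) hb hm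
  rw [← hc, gc_eq] at hgc
  obtain ⟨g, hg⟩ : ∃ g : ℕ → Prop, g = fun j => Gq b L c' ((b : ℝ) ^ j * θ) := ⟨_, rfl⟩
  have hact : ∑ j ∈ range m, (if (L - 1) + j + 1 ≤ m ∧ Gd b c ((b : ℝ) ^ j * (((((((b ^ L).factorial : ℕ) : ℤ) * κ : ℤ) : ℝ)) *
      ((t : ℝ) / ((b ^ (K + 1) : ℕ) : ℝ)))) then 1 else 0) ≤ actL g L m := by
    unfold actL
    rw [← card_filter]
    apply card_le_card
    intro j hj
    rw [mem_filter, mem_range] at hj ⊢
    refine ⟨by omega, by omega, ?_⟩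
    rw [hg]
    simp only
    rw [hc', hM]
    apply gq_of b L hb c hc0.le (by linarith)
    have e1 : (((b ^ L).factorial : ℕ) : ℝ) * ((b : ℝ) ^ j * θ) = (b : ℝ) ^ j * (((((((b ^ L).factorial : ℕ) : ℤ) * κ : ℤ) : ℝ)) *
      ((t : ℝ) / ((b ^ (K + 1) : ℕ) : ℝ))) := by
      rw [hθ]
      push_cast
      ring
    rw [e1]
    exact hj.2.2
  have hact2 : D' * Lg ≤ actL g L m := by
    unfold Pool.Agent.N625.PT.FF at ht
    rw [← hLg] at ht heτ
    have e2 : (D' + τ + L) * Lg = D' * Lg + τ * Lg + L * Lg := by ring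
    have e3 : L * 1 ≤ L * Lg := Nat.mul_le_mul_left _ hLg1
    rw [e2] at ht
    omega
  have hZ := Hch m p hp θ g (fun j hj => by rw [hg] at hj; exact hj)
  have hK1 : 1 ≤ K := by omega
  have hKr : (1 : ℝ) ≤ K := by exact_mod_cast hK1
  have h6 : μ ^ actL g L m ≤ 1 / (K : ℝ) ^ (V + 1) := by
    refine (pow_le_pow_of_le_one hμ0.le hμ1.le hact2).trans ?_
    rw [hLg]
    exact pow_log_le b hb μ hμ0.le _ D' hD'.le K hK1
  have h7 : C ≤ (K : ℝ) := hK₁.trans (by exact_mod_cast (by omega : K₁ ≤ K))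
  calc _ ≤ C * μ ^ actL g L m := hZ
    _ ≤ (K : ℝ) * (1 / (K : ℝ) ^ (V + 1)) := mul_le_mul h7 h6 (by positivity) (by positivity)
    _ = 1 / (K : ℝ) ^ V := by
        rw [pow_add]
        field_simp

/-- the law of the random integers -/
theorem law (hW : Words b q) {L : ℕ} (hL : 1 ≤ L) (hD : Dec b q L) (κ : ℤ) (τ V : ℕ) :
    ∃ D K₀ : ℕ, ∀ K : ℕ, K₀ ≤ K → ∀ m e, K = m + e → e ≤ τ * (Nat.log b K + 1) → ∀ p, WordLaw b q m p → ∀ cc : ℤ,
    Law b (Pool.Agent.N625.PT.FF b L κ) D V K (range (b ^ m)) p (fun v => cc + κ * (v : ℕ)) := by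
  obtain ⟨D, K₀, h⟩ := char_small hW.two hL hD κ τ V
  refine ⟨D, K₀, fun K hK m e hm heτ p hp cc => ?_⟩
  refine ⟨fun v _ => law_nonneg hW hp v, (law_sum hp).le, fun t ht => ?_⟩
  have h1 := h K hK m e hm heτ p hp t ht
  obtain ⟨θ0, hθ0⟩ : ∃ θ0, θ0 = (t : ℝ) / ((b ^ (K + 1) : ℕ) : ℝ) := ⟨_, rfl⟩
  rw [← hθ0] at h1 ⊢
  have h2 : ∑ v ∈ range (b ^ m), ((p v : ℝ) : ℂ) * ee (((cc + κ * (v : ℕ) : ℤ) : ℝ) * θ0) =
      ee (cc * θ0) * ∑ v ∈ range (b ^ m), (p v : ℂ) * ee (v * ((κ : ℝ) * θ0)) := by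
    rw [mul_sum]
    apply sum_congr rfl
    intro v _
    have : (((cc + κ * (v : ℕ) : ℤ) : ℝ) * θ0) = cc * θ0 + v * ((κ : ℝ) * θ0) := by
      push_cast
      ring
    rw [this, ee_add]
    ring
  rw [h2, norm_mul, norm_ee, one_mul]
  exact h1

/-- the probability of the integers with a given quotient -/
lemma quot_le (hW : Words b q) {k l : ℕ} {p : ℕ → ℝ} (hp : WordLaw b q k p) (hl : l ≤ k) (x : ℝ) (hx0 : 0 ≤ x)
    (hx : ∀ P < b ^ (k - l), ∑ v ∈ range (b ^ k), (if v / b ^ l = P then p v else 0) ≤ x) (S : Finset ℕ) (P : ℕ)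
    (hS : ∀ v ∈ S, v < b ^ k ∧ v / b ^ l = P) : ∑ v ∈ S, p v ≤ x := by
  classical
  have hb := hW.two
  by_cases hP : P < b ^ (k - l)
  · refine le_trans ?_ (hx P hP)
    rw [← sum_filter]
    apply sum_le_sum_of_subset_of_nonneg
    · intro v hv
      obtain ⟨h1, h2⟩ := hS v hv
      rw [mem_filter, mem_range]
      exact ⟨h1, h2⟩
    · intro v _ _
      exact law_nonneg hW hp v
  · have : S = ∅ := by
      rw [eq_empty_iff_forall_notMem]
      intro v hv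
      obtain ⟨h1, h2⟩ := hS v hv
      apply hP
      rw [← h2]
      apply Nat.div_lt_of_lt_mul
      rw [← pow_add]
      have : l + (k - l) = k := by omega
      rw [this]
      exact h1
    rw [this, sum_empty]
    exact hx0

/-- the probability of an interval -/
lemma interval (hW : Words b q) {k l : ℕ} {p : ℕ → ℝ} (hp : WordLaw b q k p) (hl : l ≤ k) (x : ℝ) (hx0 : 0 ≤ x)
    (hx : ∀ P < b ^ (k - l), ∑ v ∈ range (b ^ k), (if v / b ^ l = P then p v else 0) ≤ x)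
    (S : Finset ℕ) (hS : ∀ v ∈ S, v < b ^ k) (hS2 : ∀ v ∈ S, ∀ v' ∈ S, v' < v + b ^ l) :
    ∑ v ∈ S, p v ≤ 2 * x := by
  classical
  have hb := hW.two
  rcases S.eq_empty_or_nonempty with hE | hE
  · rw [hE, sum_empty]
    linarith
  · obtain ⟨v0, hv0⟩ : ∃ v0, v0 = S.min' hE := ⟨_, rfl⟩
    have hv0S : v0 ∈ S := by rw [hv0]; exact S.min'_mem hE
    have hmin : ∀ v ∈ S, v0 ≤ v := fun v hv => by rw [hv0]; exact S.min'_le v hv
    obtain ⟨u, hu⟩ : ∃ u, u = v0 / b ^ l := ⟨_, rfl⟩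
    have hbl : 0 < b ^ l := by positivity
    rw [← sum_filter_add_sum_filter_not S (fun v => v / b ^ l = u)]
    have e1 := quot_le hW hp hl x hx0 hx (S.filter fun v => v / b ^ l = u) u (by
      intro v hv
      rw [mem_filter] at hv
      exact ⟨hS v hv.1, hv.2⟩)
    have e2 := quot_le hW hp hl x hx0 hx (S.filter fun v => ¬ v / b ^ l = u) (u + 1) (by
      intro v hv
      rw [mem_filter] at hv
      refine ⟨hS v hv.1, ?_⟩
      have g1 : u ≤ v / b ^ l := by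
        rw [hu]
        exact Nat.div_le_div_right (hmin v hv.1)
      have g2 : v / b ^ l < u + 2 := by
        have g3 := hS2 v0 hv0S v hv.1
        rw [Nat.div_lt_iff_lt_mul hbl]
        have g4 : v0 < b ^ l * (v0 / b ^ l) + b ^ l := Nat.lt_mul_div_succ v0 hbl
        rw [← hu] at g4
        nlinarith
      omega)
    linarith

/-- small values are rare -/
lemma anti_small (hW : Words b q) {L : ℕ} (hD : Dec b q L) (κ : ℤ) (hκ : κ ≠ 0) (e U : ℕ) :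
    ∃ W K₀ : ℕ, ∀ K : ℕ, K₀ ≤ K → ∀ m, K = m + e → ∀ p, WordLaw b q m p → ∀ cc : ℤ, ∀ Sm : ℕ → Prop, ∀ [DecidablePred Sm],
    (∀ v < b ^ m, Sm v → 1 ≤ cc + κ * (v : ℕ) ∧
      ((cc + κ * (v : ℕ) : ℤ) : ℝ) < ((b ^ K : ℕ) : ℝ) / Real.log ((b ^ K : ℕ) : ℝ) ^ (W + 1)) →
    ∑ v ∈ range (b ^ m), (if Sm v then p v else 0) ≤ 1 / (K : ℝ) ^ (U + 1) := by
  have hb := hW.two
  have hbr : (2 : ℝ) ≤ b := by exact_mod_cast hb
  have hb0 : (0 : ℝ) < b := by linarith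
  have hlogB : 0 < Real.log b := Real.log_pos (by linarith)
  obtain ⟨μ, C, hμ0, hμ1, hC, _, Hpre⟩ := hD 1 one_pos le_rfl
  obtain ⟨τ, hτ⟩ : ∃ τ : ℕ, μ ^ τ < (1 / (b : ℝ)) ^ (U + 3) :=
    exists_pow_lt_of_lt_one (show (0 : ℝ) < (1 / b) ^ (U + 3) by positivity) hμ1
  obtain ⟨k2, hk2⟩ := exists_nat_ge ((b : ℝ) ^ (e + τ + 1) / Real.log b ^ (τ + 1))
  obtain ⟨k3, hk3⟩ := room b hb τ (e + 4)
  obtain ⟨k4, hk4⟩ := exists_nat_ge C
  refine ⟨τ, k2 + k3 + k4 + 4, fun K hK m hm p hp cc Sm _ hSm => ?_⟩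
  have hK1 : 1 ≤ K := by omega
  have hKr : (1 : ℝ) ≤ K := by exact_mod_cast hK1
  have hK2 : (2 : ℝ) ≤ K := by exact_mod_cast (by omega : 2 ≤ K)
  have hKC : C ≤ K := hk4.trans (by exact_mod_cast (by omega : k4 ≤ K))
  have hroom := hk3 K (by omega)
  obtain ⟨Lg, hLg⟩ : ∃ Lg, Lg = Nat.log b K := ⟨_, rfl⟩
  rw [← hLg] at hroom
  obtain ⟨T, hT⟩ : ∃ T, T = τ * (Lg + 1) := ⟨_, rfl⟩
  have hTm : T ≤ m := by omega
  obtain ⟨l, hl⟩ : ∃ l, l = m - T := ⟨_, rfl⟩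
  have hmTl : T + l = m := by omega
  have hR' : ((b ^ K : ℕ) : ℝ) / Real.log ((b ^ K : ℕ) : ℝ) ^ (τ + 1) ≤ (b : ℝ) ^ l := by
    have e0 : Real.log ((b ^ K : ℕ) : ℝ) = K * Real.log b := by
      push_cast
      rw [Real.log_pow]
    have e1 : (b : ℝ) ^ Lg ≤ K := by
      rw [hLg]
      exact_mod_cast Nat.pow_log_le_self b (by omega)
    have e2 : ((b ^ K : ℕ) : ℝ) = (b : ℝ) ^ l * ((b : ℝ) ^ (e + τ) * ((b : ℝ) ^ Lg) ^ τ) := by
      push_cast
      rw [← pow_mul, ← pow_add, ← pow_add]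
      congr 1
      rw [hm, hl, mul_comm Lg τ]
      have : τ * (Lg + 1) = τ * Lg + τ := by ring
      omega
    have hlog0 : 0 < (K : ℝ) * Real.log b := by positivity
    rw [e0, div_le_iff₀ (by positivity), e2]
    apply mul_le_mul_of_nonneg_left _ (by positivity)
    rw [mul_pow, pow_succ (K : ℝ)]
    have e3 : (b : ℝ) ^ (e + τ + 1) ≤ K * Real.log b ^ (τ + 1) := by
      rw [div_le_iff₀ (by positivity)] at hk2
      refine hk2.trans (mul_le_mul_of_nonneg_right ?_ (by positivity))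
      exact_mod_cast (by omega : k2 ≤ K)
    have e4 : (b : ℝ) ^ (e + τ) ≤ (b : ℝ) ^ (e + τ + 1) := pow_le_pow_right₀ (by linarith) (by omega)
    calc (b : ℝ) ^ (e + τ) * ((b : ℝ) ^ Lg) ^ τ ≤ (K * Real.log b ^ (τ + 1)) * (K : ℝ) ^ τ :=
          mul_le_mul (e4.trans e3) (pow_le_pow_left₀ (by positivity) e1 τ) (by positivity) (by positivity)
      _ = _ := by ring
  have hx : ∀ P < b ^ (m - l), ∑ v ∈ range (b ^ m), (if v / b ^ l = P then p v else 0) ≤ C * μ ^ T := by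
    intro P hP
    have h1 := Hpre m p hp l (by omega) P hP
    have h2 : m - l = T := by omega
    rw [h2] at h1
    exact h1
  have hint := interval hW hp (by omega : l ≤ m) (C * μ ^ T) (by positivity) hx
    ((range (b ^ m)).filter Sm) (by
      intro v hv
      rw [mem_filter, mem_range] at hv
      exact hv.1) (by
      intro v hv v' hv'
      rw [mem_filter, mem_range] at hv hv'
      obtain ⟨a5, a1⟩ := hSm v hv.1 hv.2
      obtain ⟨a6, a2⟩ := hSm v' hv'.1 hv'.2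
      have a3 : cc + κ * v < (b : ℤ) ^ l := by exact_mod_cast lt_of_lt_of_le a1 hR'
      have a4 : cc + κ * v' < (b : ℤ) ^ l := by exact_mod_cast lt_of_lt_of_le a2 hR'
      by_contra hcon
      push Not at hcon
      have a7 : (v : ℤ) + (b : ℤ) ^ l ≤ v' := by exact_mod_cast hcon
      have hbl : (0 : ℤ) < (b : ℤ) ^ l := by positivity
      rcases lt_or_gt_of_ne hκ with h | h
      · have : κ * ((v' : ℤ) - v) ≤ -1 * ((v' : ℤ) - v) := by
          apply mul_le_mul_of_nonneg_right (by omega)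
          linarith
        linarith
      · have : 1 * ((v' : ℤ) - v) ≤ κ * ((v' : ℤ) - v) := by
          apply mul_le_mul_of_nonneg_right (by omega)
          linarith
        linarith)
  rw [← sum_filter]
  refine hint.trans ?_
  have h6 : μ ^ T ≤ 1 / (K : ℝ) ^ (U + 3) := by
    rw [hT, hLg]
    exact pow_log' b hb _ hμ0.le _ _ hτ.le K hK1
  calc 2 * (C * μ ^ T) ≤ 2 * ((K : ℝ) * (1 / (K : ℝ) ^ (U + 3))) := by
        apply mul_le_mul_of_nonneg_left _ (by norm_num)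
        exact mul_le_mul hKC h6 (by positivity) (by positivity)
    _ = (2 / K) * (1 / (K : ℝ) ^ (U + 1)) := by
        rw [show U + 3 = (U + 1) + 1 + 1 by ring, pow_succ _ ((U + 1) + 1), pow_succ _ (U + 1)]
        field_simp
    _ ≤ 1 * (1 / (K : ℝ) ^ (U + 1)) := by
        apply mul_le_mul_of_nonneg_right _ (by positivity)
        rw [div_le_one (by linarith)]
        exact hK2
    _ = _ := one_mul _

/-- the class of the concatenations of random words -/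
theorem word_clsV (hW : Words b q) (κ : ℤ) (hκ : κ ≠ 0) : ClsV b κ (WordLaw b q) := by
  obtain ⟨L, hL, hD⟩ := exists_dec hW
  exact {
    two := hW.two
    ne := hκ
    nonneg := fun k p hp => law_nonneg hW hp
    sum := fun k p hp => law_sum hp
    law := ⟨Pool.Agent.N625.PT.FF b L κ, Pool.Agent.N625.PT.FF_pos b L κ hκ, fun e V => by
      obtain ⟨D, K₀, h⟩ := law hW hL hD κ e V
      refine ⟨D, K₀, fun K hK m hm p hp cc => h K hK m e hm ?_ p hp cc⟩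
      exact Nat.le_mul_of_pos_right _ (by omega)⟩
    anti := fun e U => anti_small hW hD κ hκ e U
    law' := ⟨Pool.Agent.N625.PT.FF b L κ, Pool.Agent.N625.PT.FF_pos b L κ hκ, fun τ V => law hW hL hD κ τ V⟩ }

end Pool.Agent.Run7.h672.CC
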