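import Pool.Agent.Run7.h672.CC.Defs

set_option autoImplicit false

/-! Renewal sequences with marks: the energy decreases at every mark. -/

namespace Pool.Agent.Run7.h672.CC
open Finset

/-- the tails of the lengths -/
def Qt (q : ℕ → ℝ) (m : ℕ) : ℝ := 1 - ∑ s ∈ range (m + 1), q s

/-- the lengths of the words: the tails decay exponentially -/
structure Len (q : ℕ → ℝ) (w M : ℝ) : Prop where
  zero : q 0 = 0
  nonneg : ∀ s, 0 ≤ q s
  w1 : 1 < w
  M0 : 0 ≤ M
  tail0 : ∀ m, 0 ≤ Qt q m
  tail : ∀ m, Qt q m ≤ M / w ^ m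

/-- the renewal sequence with marks -/
structure Rec (q B T : ℕ → ℝ) (η : ℝ) (l : ℕ) (G : ℕ → Prop) [DecidablePred G] (y : ℕ → ℝ) : Prop where
  zero : y 0 = B 0
  succ : ∀ k, y (k + 1) = B (k + 1) + ∑ j ∈ range (k + 1), q (k + 1 - j) * y j - (if G (k + 1) then η * y (k + 1 - l) else 0)
  tele : ∀ k, B (k + 1) = T k - T (k + 1)
  B0 : ∀ k, 0 ≤ B k
  T0 : ∀ k, 0 ≤ T k
  nonneg : ∀ k, 0 ≤ y k

/-- the energy -/
noncomputable def En (q T y : ℕ → ℝ) (k : ℕ) : ℝ := T k + ∑ j ∈ range (k + 1), y j * Qt q (k - j)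

variable {q B T y : ℕ → ℝ} {w M η : ℝ} {l : ℕ} {G : ℕ → Prop} [DecidablePred G]

lemma Qt_zero (hq : Len q w M) : Qt q 0 = 1 := by
  unfold Qt
  rw [zero_add, sum_range_one, hq.zero, sub_zero]

lemma Qt_succ (q : ℕ → ℝ) (m : ℕ) : Qt q (m + 1) = Qt q m - q (m + 1) := by
  unfold Qt
  rw [sum_range_succ _ (m + 1)]
  ring

/-- the change of the energy -/
lemma En_succ (hq : Len q w M) (hy : Rec q B T η l G y) (k : ℕ) :
    En q T y (k + 1) = En q T y k - (if G (k + 1) then η * y (k + 1 - l) else 0) := by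
  unfold En
  rw [sum_range_succ _ (k + 1), Nat.sub_self, Qt_zero hq, mul_one]
  have e1 : ∑ j ∈ range (k + 1), y j * Qt q (k + 1 - j) =
      ∑ j ∈ range (k + 1), y j * Qt q (k - j) - ∑ j ∈ range (k + 1), q (k + 1 - j) * y j := by
    rw [← sum_sub_distrib]
    apply sum_congr rfl
    intro j hj
    rw [mem_range] at hj
    have e2 : k + 1 - j = (k - j) + 1 := by omega
    rw [e2, Qt_succ]
    ring
  have h1 := hy.succ k
  have h2 := hy.tele k
  rw [e1]
  linarith

lemma le_En (hq : Len q w M) (hy : Rec q B T η l G y) (k : ℕ) : y k ≤ En q T y k := by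
  unfold En
  rw [sum_range_succ, Nat.sub_self, Qt_zero hq, mul_one]
  have h1 : 0 ≤ ∑ j ∈ range k, y j * Qt q (k - j) := sum_nonneg fun j _ => mul_nonneg (hy.nonneg j) (hq.tail0 _)
  have h2 := hy.T0 k
  linarith

lemma En_anti (hq : Len q w M) (hη : 0 ≤ η) (hy : Rec q B T η l G y) (k : ℕ) : En q T y (k + 1) ≤ En q T y k := by
  rw [En_succ hq hy]
  split_ifs
  · have := mul_nonneg hη (hy.nonneg (k + 1 - l))
    linarith
  · linarith

lemma En_same (hq : Len q w M) (hy : Rec q B T η l G y) (a n : ℕ) (h : ∀ j, a < j → j ≤ a + n → ¬ G j) :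
    En q T y (a + n) = En q T y a := by
  induction n with
  | zero => rfl
  | succ n ih =>
    rw [← add_assoc, En_succ hq hy, if_neg (h _ (by omega) (by omega)), sub_zero]
    exact ih fun j h1 h2 => h j h1 (by omega)

/-- the energy decays slowly -/
lemma En_slow (hq : Len q w M) (hη : 0 ≤ η) (hl : 1 ≤ l) (hG : ∀ j j', G j → G j' → j < j' → j + l ≤ j') (hGl : ∀ j, G j → l ≤ j)
    (hy : Rec q B T η l G y) (k : ℕ) : (1 - η) * En q T y k ≤ En q T y (k + 1) := by
  rw [En_succ hq hy]
  by_cases hk : G (k + 1)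
  · rw [if_pos hk]
    have h1 := hGl _ hk
    have h2 : En q T y ((k + 1 - l) + (l - 1)) = En q T y (k + 1 - l) := by
      apply En_same hq hy
      intro j h3 h4 h5
      have := hG j (k + 1) h5 hk (by omega)
      omega
    have h3 : (k + 1 - l) + (l - 1) = k := by omega
    rw [h3] at h2
    have h4 := le_En hq hy (k + 1 - l)
    rw [← h2] at h4
    have := mul_le_mul_of_nonneg_left h4 hη
    linarith
  · rw [if_neg hk]
    have h1 : 0 ≤ En q T y k := (hy.nonneg k).trans (le_En hq hy k)
    have := mul_nonneg hη h1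
    linarith

lemma En_slow' (hq : Len q w M) (hη : 0 ≤ η) (hη1 : η < 1) (hl : 1 ≤ l) (hG : ∀ j j', G j → G j' → j < j' → j + l ≤ j') (hGl : ∀ j, G j → l ≤ j)
    (hy : Rec q B T η l G y) (a n : ℕ) : (1 - η) ^ n * En q T y a ≤ En q T y (a + n) := by
  induction n with
  | zero => simp
  | succ n ih =>
    have h1 := En_slow hq hη hl hG hGl hy (a + n)
    have h2 : (0 : ℝ) ≤ 1 - η := by linarith
    calc (1 - η) ^ (n + 1) * En q T y a = (1 - η) * ((1 - η) ^ n * En q T y a) := by ring
      _ ≤ (1 - η) * En q T y (a + n) := mul_le_mul_of_nonneg_left ih h2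
      _ ≤ _ := h1

/-- the renewal probabilities -/
noncomputable def ren (q : ℕ → ℝ) : ℕ → ℝ
  | 0 => 1
  | k + 1 => ∑ j : Fin (k + 1), q (k + 1 - j) * ren q j
termination_by k => k

lemma ren_succ (q : ℕ → ℝ) (k : ℕ) : ren q (k + 1) = ∑ j ∈ range (k + 1), q (k + 1 - j) * ren q j := by
  rw [ren, Fin.sum_univ_eq_sum_range (fun j => q (k + 1 - j) * ren q j)]

lemma ren_nonneg (hq : ∀ s, 0 ≤ q s) (k : ℕ) : 0 ≤ ren q k := by
  induction k using Nat.strong_induction_on with
  | _ k ih =>
    cases k with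
    | zero => rw [ren]; norm_num
    | succ k =>
      rw [ren_succ]
      exact sum_nonneg fun j hj => mul_nonneg (hq _) (ih j (by rw [mem_range] at hj; exact hj))

/-- without marks -/
lemma ren_mul_le (hq : Len q w M) (hy : Rec q B T η l G y) (a n : ℕ) (h : ∀ j, a < j → j ≤ a + n → ¬ G j) :
    ren q n * y a ≤ y (a + n) := by
  induction n using Nat.strong_induction_on with
  | _ n ih =>
    cases n with
    | zero => rw [ren]; simp
    | succ n =>
      rw [ren_succ, ← add_assoc, hy.succ, if_neg (h _ (by omega) (by omega)), sub_zero, sum_mul]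
      have h1 : ∑ j ∈ range (n + 1), q (n + 1 - j) * ren q j * y a ≤ ∑ j ∈ range (a + n + 1), q (a + n + 1 - j) * y j := by
        have h2 : ∑ j ∈ range (n + 1), q (n + 1 - j) * ren q j * y a ≤ ∑ j ∈ range (n + 1), q (a + n + 1 - (a + j)) * y (a + j) := by
          apply sum_le_sum
          intro j hj
          rw [mem_range] at hj
          have e1 : a + n + 1 - (a + j) = n + 1 - j := by omega
          rw [e1, mul_assoc]
          exact mul_le_mul_of_nonneg_left (ih j hj fun i h1 h2 => h i h1 (by omega)) (hq.nonneg _)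
        refine h2.trans ?_
        have e2 : a + n + 1 = a + (n + 1) := by ring
        have e3 : range (a + n + 1) = range (a + (n + 1)) := by rw [e2]
        have e4 := sum_range_add (fun j => q (a + n + 1 - j) * y j) a (n + 1)
        rw [e3]
        have h3 : 0 ≤ ∑ j ∈ range a, q (a + n + 1 - j) * y j := sum_nonneg fun j _ => mul_nonneg (hq.nonneg _) (hy.nonneg _)
        linarith
      have h4 := hy.B0 (a + n + 1)
      linarith

/-- after some time without marks the sequence is comparable to the energy -/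
theorem window (hq : Len q w M) (n₀ : ℕ) (hren : ∀ n, n₀ ≤ n → 0 < ren q n) (η : ℝ) (hη : 0 ≤ η) (hηw : 1 < (1 - η) * w) (hη1 : η < 1)
    (A : ℝ) (hA : 0 ≤ A) : ∃ (N : ℕ) (c : ℝ), 0 < c ∧ c ≤ 1 ∧ n₀ ≤ N ∧ ∀ (l : ℕ) (G : ℕ → Prop) [DecidablePred G] (B T y : ℕ → ℝ), 1 ≤ l →
      (∀ j j', G j → G j' → j < j' → j + l ≤ j') → (∀ j, G j → l ≤ j) → Rec q B T η l G y → (∀ k, T k ≤ A * En q T y 0 / w ^ k) →
      ∀ n, N ≤ n → (∀ j, n < j + N → j ≤ n → ¬ G j) → c * En q T y n ≤ y n := by
  obtain ⟨r, hr⟩ : ∃ r, r = 1 / ((1 - η) * w) := ⟨_, rfl⟩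
  have hr0 : 0 < r := by rw [hr]; positivity
  have hr1 : r < 1 := by rw [hr, div_lt_one (by linarith)]; exact hηw
  have hw0 : 0 < w := by linarith [hq.w1]
  have hη2 : 0 < 1 - η := by linarith
  have hM0 := hq.M0
  have hr2 : 0 < 1 - r := by linarith
  obtain ⟨W, hW⟩ := exists_pow_lt_of_lt_one (show 0 < 1 / (2 * (M / (1 - r) + A + 1)) by positivity) hr1
  have hW' : (M / (1 - r) + A) * r ^ W ≤ 1 / 2 := by
    have h1 : (M / (1 - r) + A) * r ^ W ≤ (M / (1 - r) + A + 1) * (1 / (2 * (M / (1 - r) + A + 1))) :=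
      mul_le_mul (by linarith) hW.le (by positivity) (by positivity)
    refine h1.trans (le_of_eq ?_)
    field_simp
  obtain ⟨R, hR⟩ : ∃ R, R = ∑ x ∈ range W, 1 / ren q (n₀ + x) := ⟨_, rfl⟩
  have hR0 : 0 ≤ R := by
    rw [hR]
    exact sum_nonneg fun x _ => by
      have := hren (n₀ + x) (by omega)
      positivity
  refine ⟨n₀ + W, 1 / (2 * (R + 1)), by positivity, ?_, by omega, ?_⟩
  · rw [div_le_one (by positivity)]
    linarith
  · intro l G _ B T y hl hG hGl hy hT n hn hno
    obtain ⟨n', hn'⟩ : ∃ n', n' = n - n₀ := ⟨_, rfl⟩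
    have hE : En q T y n = En q T y n' := by
      have h1 := En_same hq hy n' n₀ (fun j h1 h2 => hno j (by omega) (by omega))
      have h2 : n' + n₀ = n := by omega
      rw [h2] at h1
      exact h1
    obtain ⟨E, hEd⟩ : ∃ E, E = En q T y n' := ⟨_, rfl⟩
    have hE0 : 0 ≤ E := by rw [hEd]; exact (hy.nonneg n').trans (le_En hq hy n')
    have hslow : ∀ x, x ≤ n' → En q T y (n' - x) ≤ E * (1 / (1 - η)) ^ x := by
      intro x hx
      have h1 := En_slow' hq hη hη1 hl hG hGl hy (n' - x) x
      have h2 : n' - x + x = n' := by omega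
      rw [h2, ← hEd] at h1
      rw [one_div, inv_pow, ← div_eq_mul_inv, le_div_iff₀ (by positivity)]
      linarith
    have hrw : ∀ x : ℕ, (1 / (1 - η)) ^ x * (1 / w ^ x) = r ^ x := by
      intro x
      rw [hr, one_div_pow, one_div_pow, mul_pow]
      field_simp
    have hT' : T n' ≤ A * r ^ W * E := by
      have h1 := hslow n' le_rfl
      rw [Nat.sub_self] at h1
      have h2 := hT n'
      have h3 : A * En q T y 0 / w ^ n' ≤ A * (E * (1 / (1 - η)) ^ n') / w ^ n' := by
        apply div_le_div_of_nonneg_right _ (by positivity)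
        exact mul_le_mul_of_nonneg_left h1 hA
      have h4 : A * (E * (1 / (1 - η)) ^ n') / w ^ n' = A * E * r ^ n' := by
        rw [← hrw n']
        ring
      have h5 : r ^ n' ≤ r ^ W := pow_le_pow_of_le_one hr0.le hr1.le (by omega)
      have h6 : A * E * r ^ n' ≤ A * E * r ^ W := mul_le_mul_of_nonneg_left h5 (by positivity)
      calc T n' ≤ A * E * r ^ W := by linarith
        _ = _ := by ring
    have hsum : ∑ j ∈ range (n' + 1), y j * Qt q (n' - j) ≤ ∑ x ∈ range W, y (n' - x) + M / (1 - r) * r ^ W * E := by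
      rw [← sum_range_reflect]
      have h1 : ∑ x ∈ range (n' + 1), y (n' + 1 - 1 - x) * Qt q (n' - (n' + 1 - 1 - x)) =
          ∑ x ∈ range (n' + 1), y (n' - x) * Qt q x := by
        apply sum_congr rfl
        intro x hx
        rw [mem_range] at hx
        congr 2
        omega
      rw [h1, range_eq_Ico, ← sum_Ico_consecutive _ (Nat.zero_le W) (by omega : W ≤ n' + 1), ← range_eq_Ico]
      apply add_le_add
      · apply sum_le_sum
        intro x _
        have h2 : Qt q x ≤ 1 := by
          unfold Qt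
          have := sum_nonneg (s := range (x + 1)) fun s _ => hq.nonneg s
          linarith
        calc y (n' - x) * Qt q x ≤ y (n' - x) * 1 := mul_le_mul_of_nonneg_left h2 (hy.nonneg _)
          _ = _ := mul_one _
      · have h2 : ∑ x ∈ Ico W (n' + 1), y (n' - x) * Qt q x ≤ ∑ x ∈ Ico W (n' + 1), (E * M) * r ^ x := by
          apply sum_le_sum
          intro x hx
          rw [mem_Ico] at hx
          have h3 := (le_En hq hy (n' - x)).trans (hslow x (by omega))
          calc y (n' - x) * Qt q x ≤ (E * (1 / (1 - η)) ^ x) * (M / w ^ x) :=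
                mul_le_mul h3 (hq.tail x) (hq.tail0 x) (by positivity)
            _ = (E * M) * ((1 / (1 - η)) ^ x * (1 / w ^ x)) := by ring
            _ = _ := by rw [hrw]
        refine h2.trans ?_
        rw [← mul_sum]
        have h3 := geom_sum_Ico_le_of_lt_one (m := W) (n := n' + 1) hr0.le hr1
        calc (E * M) * ∑ x ∈ Ico W (n' + 1), r ^ x ≤ (E * M) * (r ^ W / (1 - r)) :=
              mul_le_mul_of_nonneg_left h3 (by positivity)
          _ = _ := by ring
    have hE2 : E ≤ 2 * ∑ x ∈ range W, y (n' - x) := by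
      have h1 : E = T n' + ∑ j ∈ range (n' + 1), y j * Qt q (n' - j) := hEd
      have h2 : (M / (1 - r) + A) * r ^ W * E ≤ 1 / 2 * E := mul_le_mul_of_nonneg_right hW' hE0
      have h3 : (M / (1 - r) + A) * r ^ W * E = M / (1 - r) * r ^ W * E + A * r ^ W * E := by ring
      linarith
    have hyn : ∑ x ∈ range W, y (n' - x) ≤ R * y n := by
      rw [hR, sum_mul]
      apply sum_le_sum
      intro x hx
      rw [mem_range] at hx
      have h1 := ren_mul_le hq hy (n' - x) (n₀ + x) (fun j h1 h2 => hno j (by omega) (by omega))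
      have h2 : n' - x + (n₀ + x) = n := by omega
      rw [h2] at h1
      have h3 := hren (n₀ + x) (by omega)
      rw [one_div, inv_mul_eq_div, le_div_iff₀ h3]
      linarith
    rw [hE, ← hEd, one_div, inv_mul_eq_div, div_le_iff₀ (by positivity)]
    have := hy.nonneg n
    linarith

/-- the energy decreases at every mark -/
theorem decay (hq : Len q w M) (n₀ : ℕ) (hren : ∀ n, n₀ ≤ n → 0 < ren q n) (η : ℝ) (hη : 0 < η) (hηw : 1 < (1 - η) * w) (hη1 : η < 1)
    (A : ℝ) (hA : 0 ≤ A) : ∃ (N : ℕ) (c : ℝ), 0 < c ∧ c ≤ 1 ∧ 1 ≤ N ∧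
      (∀ (l : ℕ) (G : ℕ → Prop) [DecidablePred G] (B T y : ℕ → ℝ), 1 ≤ l →
      (∀ j j', G j → G j' → j < j' → j + (l + N) ≤ j') → (∀ j, G j → l + N ≤ j) → Rec q B T η l G y →
      (∀ k, T k ≤ A * En q T y 0 / w ^ k) →
      ∀ n, y n ≤ En q T y 0 * (1 - η * c) ^ ((range (n + 1)).filter G).card) ∧
      (∀ (B T y : ℕ → ℝ), Rec q B T η 1 (fun _ => False) y → (∀ k, T k ≤ A * En q T y 0 / w ^ k) →
      ∀ n, N ≤ n → c * En q T y 0 ≤ y n) := by
  obtain ⟨N, c, hc0, hc1, hN, H⟩ := window hq n₀ hren η hη.le hηw hη1 A hA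
  refine ⟨N + 1, c, hc0, hc1, by omega, ?_, ?_⟩
  · intro l G _ B T y hl hG hGl hy hT n
    refine (le_En hq hy n).trans ?_
    have hG1 : ∀ j j', G j → G j' → j < j' → j + l ≤ j' := fun j j' h1 h2 h3 => by
      have := hG j j' h1 h2 h3
      omega
    have hG2 : ∀ j, G j → l ≤ j := fun j h1 => by
      have := hGl j h1
      omega
    have hηc : 0 ≤ 1 - η * c := by nlinarith
    induction n with
    | zero =>
      have : (range (0 + 1)).filter G = ∅ := by
        rw [filter_eq_empty_iff]
        intro j hj hGj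
        rw [mem_range] at hj
        have := hGl j hGj
        omega
      rw [this, card_empty, pow_zero, mul_one]
    | succ n ih =>
      by_cases hn : G (n + 1)
      · have h1 : ((range (n + 1 + 1)).filter G).card = ((range (n + 1)).filter G).card + 1 := by
          rw [range_add_one, filter_insert, if_pos hn, card_insert_of_notMem (by simp)]
        rw [h1, pow_succ, ← mul_assoc]
        refine le_trans ?_ (mul_le_mul_of_nonneg_right ih hηc)
        rw [En_succ hq hy, if_pos hn]
        have h2 := hGl _ hn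
        have h3 := H l G B T y hl hG1 hG2 hy hT (n + 1 - l) (by omega) (fun j h3 h4 h5 => by
          have := hG j (n + 1) h5 hn (by omega)
          omega)
        have h4 : En q T y ((n + 1 - l) + (l - 1)) = En q T y (n + 1 - l) := by
          apply En_same hq hy
          intro j h3 h4 h5
          have := hG j (n + 1) h5 hn (by omega)
          omega
        have h5 : (n + 1 - l) + (l - 1) = n := by omega
        rw [h5] at h4
        rw [← h4] at h3
        have := mul_le_mul_of_nonneg_left h3 hη.le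
        linarith
      · have h1 : ((range (n + 1 + 1)).filter G).card = ((range (n + 1)).filter G).card := by
          rw [range_add_one, filter_insert, if_neg hn]
        rw [h1]
        refine le_trans ?_ ih
        rw [En_succ hq hy, if_neg hn, sub_zero]
  · intro B T y hy hT n hn
    have h1 := H 1 (fun _ => False) B T y le_rfl (fun _ _ h => h.elim) (fun _ h => h.elim) hy hT n (by omega) (fun _ _ _ h => h)
    have h2 := En_same hq hy 0 n (fun _ _ _ h => h)
    rw [zero_add] at h2
    rw [h2] at h1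
    exact h1

/-- the possible total lengths -/
lemma ren_add (q : ℕ → ℝ) (hq : ∀ s, 0 ≤ q s) (m n : ℕ) : ren q m * ren q n ≤ ren q (m + n) := by
  induction m using Nat.strong_induction_on with
  | _ m ih =>
    cases m with
    | zero => rw [ren]; simp
    | succ m =>
      have e : m + 1 + n = (n + m) + 1 := by ring
      rw [e, ren_succ, ren_succ, sum_mul]
      have h1 : ∑ j ∈ range (m + 1), q (m + 1 - j) * ren q j * ren q n ≤ ∑ j ∈ range (m + 1), q (n + m + 1 - (n + j)) * ren q (n + j) := by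
        apply sum_le_sum
        intro j hj
        rw [mem_range] at hj
        have e1 : n + m + 1 - (n + j) = m + 1 - j := by omega
        rw [e1, mul_assoc, add_comm n j]
        exact mul_le_mul_of_nonneg_left (ih j hj) (hq _)
      refine h1.trans ?_
      have e3 : range (n + m + 1) = range (n + (m + 1)) := by rw [add_assoc]
      have e4 := sum_range_add (fun j => q (n + m + 1 - j) * ren q j) n (m + 1)
      rw [e3]
      have h3 : 0 ≤ ∑ j ∈ range n, q (n + m + 1 - j) * ren q j := sum_nonneg fun j _ => mul_nonneg (hq _) (ren_nonneg hq _)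
      linarith

/-- if no integer at least two divides all the lengths, then all large integers are total lengths -/
lemma lens_of (q : ℕ → ℝ) (hq : ∀ s, 0 ≤ q s) (h : ∀ d : ℕ, 2 ≤ d → ∃ s, 0 < q s ∧ ¬ d ∣ s) : ∃ n₀ : ℕ, ∀ n, n₀ ≤ n → 0 < ren q n := by
  obtain ⟨S, hS⟩ : ∃ S : Set ℕ, S = {s | 0 < q s} := ⟨_, rfl⟩
  have hg : Nat.setGcd S = 1 := by
    by_contra hcon
    rcases Nat.eq_zero_or_pos (Nat.setGcd S) with h0 | h0
    · rw [Nat.setGcd_eq_zero_iff] at h0
      obtain ⟨s, hs1, hs2⟩ := h 2 le_rfl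
      have h1 := h0 (show s ∈ S by rw [hS]; exact hs1)
      rw [Set.mem_singleton_iff] at h1
      rw [h1] at hs2
      exact hs2 (dvd_zero 2)
    · obtain ⟨s, hs1, hs2⟩ := h (Nat.setGcd S) (by omega)
      exact hs2 (Nat.setGcd_dvd_of_mem (show s ∈ S by rw [hS]; exact hs1))
  obtain ⟨n, hn⟩ := Nat.exists_mem_closure_of_ge S
  refine ⟨n, fun m hm => ?_⟩
  have h1 := hn m hm (by rw [hg]; exact one_dvd _)
  clear hm
  induction h1 using AddSubmonoid.closure_induction with
  | mem x hx =>
    rw [hS] at hx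
    cases x with
    | zero => rw [ren]; norm_num
    | succ x =>
      rw [ren_succ]
      have h2 : q (x + 1 - 0) * ren q 0 ≤ ∑ j ∈ range (x + 1), q (x + 1 - j) * ren q j :=
        single_le_sum (f := fun j => q (x + 1 - j) * ren q j) (fun j _ => mul_nonneg (hq _) (ren_nonneg hq _)) (mem_range.2 (by omega))
      have h3 : ren q 0 = 1 := by rw [ren]
      rw [h3, Nat.sub_zero, mul_one] at h2
      exact lt_of_lt_of_le hx h2
  | zero => rw [ren]; norm_num
  | add x y _ _ hx hy => exact lt_of_lt_of_le (mul_pos hx hy) (ren_add q hq x y)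

end Pool.Agent.Run7.h672.CC
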