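import Pool.Agent.Run7.h672.CC.A

set_option autoImplicit false

/-! Concatenations of random words: the sums over all the ways to cut a word, and their domination by a renewal sequence. -/

namespace Pool.Agent.Run7.h672.CC
open Finset

/-- the renewal sequence with marks -/
noncomputable def Y (q B : ℕ → ℝ) (η : ℝ) (l : ℕ) (G : ℕ → Prop) [DecidablePred G] : ℕ → ℝ
  | 0 => B 0
  | k + 1 => B (k + 1) + ∑ j : Fin (k + 1), q (k + 1 - j) * Y q B η l G j - (if G (k + 1) then η * Y q B η l G (k - (l - 1)) else 0)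
termination_by k => k

lemma Y_zero (q B : ℕ → ℝ) (η : ℝ) (l : ℕ) (G : ℕ → Prop) [DecidablePred G] : Y q B η l G 0 = B 0 := by
  rw [Y]

lemma Y_succ (q B : ℕ → ℝ) (η : ℝ) (l : ℕ) (hl : 1 ≤ l) (G : ℕ → Prop) [DecidablePred G] (k : ℕ) :
    Y q B η l G (k + 1) = B (k + 1) + ∑ j ∈ range (k + 1), q (k + 1 - j) * Y q B η l G j -
      (if G (k + 1) then η * Y q B η l G (k + 1 - l) else 0) := by
  have e : k + 1 - l = k - (l - 1) := by omega
  rw [Y, Fin.sum_univ_eq_sum_range (fun j => q (k + 1 - j) * Y q B η l G j), e]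

lemma norm_rest {ι : Type} [DecidableEq ι] (S : Finset ι) (f : ι → ℂ) (g : ι → ℝ) (h : ∀ i ∈ S, ‖f i‖ ≤ g i) (i : ι) (hi : i ∈ S) :
    ‖∑ x ∈ S, f x - f i‖ ≤ ∑ x ∈ S, g x - g i := by
  rw [← add_sum_erase _ f hi, ← add_sum_erase _ g hi, add_sub_cancel_left, add_sub_cancel_left]
  exact (norm_sum_le _ _).trans (sum_le_sum fun x hx => h x (mem_of_mem_erase hx))

lemma norm_rest2 {ι : Type} [DecidableEq ι] (S : Finset ι) (f : ι → ℂ) (g : ι → ℝ) (h : ∀ i ∈ S, ‖f i‖ ≤ g i) (i i' : ι)
    (hi : i ∈ S) (hi' : i' ∈ S) (hne : i ≠ i') (δ : ℝ) (hδ : ‖f i + f i'‖ ≤ g i + g i' - δ) : ‖∑ x ∈ S, f x‖ ≤ ∑ x ∈ S, g x - δ := by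
  have hi2 : i' ∈ S.erase i := mem_erase.2 ⟨hne.symm, hi'⟩
  rw [← add_sum_erase _ f hi, ← add_sum_erase _ g hi, ← add_sum_erase _ f hi2, ← add_sum_erase _ g hi2, ← add_assoc, ← add_assoc]
  have h1 : ‖∑ x ∈ (S.erase i).erase i', f x‖ ≤ ∑ x ∈ (S.erase i).erase i', g x :=
    (norm_sum_le _ _).trans (sum_le_sum fun x hx => h x (mem_of_mem_erase (mem_of_mem_erase hx)))
  refine (norm_add_le _ _).trans ?_
  linarith

/-- the recursion for the sums over all the ways to cut a word into words -/
structure Cut (b : ℕ) (q : ℕ → ℕ → ℝ) (F X : ℕ → ℂ) (a : ℕ → ℕ → ℕ → ℂ) : Prop where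
  zero : X 0 = F 0
  succ : ∀ k, X (k + 1) = F (k + 1) + ∑ j ∈ range (k + 1), (∑ c ∈ range (b ^ (k + 1 - j)), (q (k + 1 - j) c : ℂ) * a (k + 1) j c) * X j
  le : ∀ k j c, ‖a k j c‖ ≤ 1

variable {b : ℕ} {q : ℕ → ℕ → ℝ} {F X : ℕ → ℂ} {a : ℕ → ℕ → ℕ → ℂ} {B : ℕ → ℝ} {η : ℝ} {l : ℕ} {G : ℕ → Prop} [DecidablePred G]

/-- the pairs of a rest and a word -/
def prs (b k : ℕ) : Finset (Σ _ : ℕ, ℕ) := (range k).sigma fun j => range (b ^ (k - j))

lemma Cut.succ' (hX : Cut b q F X a) (k : ℕ) :
    X (k + 1) = F (k + 1) + ∑ i ∈ prs b (k + 1), (q (k + 1 - i.1) i.2 : ℂ) * a (k + 1) i.1 i.2 * X i.1 := by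
  rw [hX.succ, prs, sum_sigma]
  congr 1
  apply sum_congr rfl
  intro j _
  rw [sum_mul]

lemma Y_succ' (hl : 1 ≤ l) (k : ℕ) : Y (len b q) B η l G (k + 1) =
    B (k + 1) + ∑ i ∈ prs b (k + 1), q (k + 1 - i.1) i.2 * Y (len b q) B η l G i.1 -
      (if G (k + 1) then η * Y (len b q) B η l G (k + 1 - l) else 0) := by
  rw [Y_succ _ _ _ _ hl, prs, sum_sigma]
  congr 2
  apply sum_congr rfl
  intro j _
  rw [len, sum_mul]

/-- a step without a mark -/
lemma plain (hq : ∀ s c, 0 ≤ q s c) (hX : Cut b q F X a) (hF : ∀ k, ‖F k‖ ≤ B k) (hl : 1 ≤ l) (k : ℕ) (hk : ¬ G (k + 1))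
    (ih : ∀ j < k + 1, ‖X j‖ ≤ Y (len b q) B η l G j) (j c : ℕ) (hj : j < k + 1) (hc : c < b ^ (k + 1 - j)) :
    ‖X (k + 1) - (q (k + 1 - j) c : ℂ) * a (k + 1) j c * X j‖ ≤ Y (len b q) B η l G (k + 1) - q (k + 1 - j) c * Y (len b q) B η l G j := by
  rw [hX.succ', Y_succ' hl, if_neg hk, sub_zero]
  have h1 := norm_rest (prs b (k + 1)) (fun i => (q (k + 1 - i.1) i.2 : ℂ) * a (k + 1) i.1 i.2 * X i.1)
    (fun i => q (k + 1 - i.1) i.2 * Y (len b q) B η l G i.1) (by
      intro i hi
      rw [prs, mem_sigma, mem_range] at hi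
      rw [norm_mul, norm_mul, Complex.norm_real, Real.norm_eq_abs, abs_of_nonneg (hq _ _)]
      have h2 := hX.le (k + 1) i.1 i.2
      calc q (k + 1 - i.1) i.2 * ‖a (k + 1) i.1 i.2‖ * ‖X i.1‖ ≤ q (k + 1 - i.1) i.2 * 1 * Y (len b q) B η l G i.1 :=
            mul_le_mul (mul_le_mul_of_nonneg_left h2 (hq _ _)) (ih _ hi.1) (norm_nonneg _) (by have := hq (k + 1 - i.1) i.2; linarith)
        _ = _ := by rw [mul_one]) ⟨j, c⟩ (by rw [prs, mem_sigma, mem_range, mem_range]; exact ⟨hj, hc⟩)
  simp only at h1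
  have h2 := hF (k + 1)
  rw [add_sub_assoc, add_sub_assoc]
  exact (norm_add_le _ _).trans (add_le_add h2 h1)

/-- the sums are dominated by the renewal sequence with marks -/
theorem dominate (hq : ∀ s c, 0 ≤ q s c) (hX : Cut b q F X a) (hF : ∀ k, ‖F k‖ ≤ B k) (s c s' c' : ℕ) (hs : 1 ≤ s) (hs' : 1 ≤ s')
    (hc : c < b ^ s) (hc' : c' < b ^ s') (hne : c * b ^ s' + c' ≠ c' * b ^ s + c) (hl : l = s + s')
    (hG : ∀ j j', G j → G j' → j < j' → j + l ≤ j') (hGl : ∀ j, G j → l ≤ j) (d : ℝ) (hd : d ≤ 2) (hη : η ≤ d * (q s c * q s' c'))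
    (hgain : ∀ k, G k → ‖a k (k - s) c * a (k - s) (k - l) c' + a k (k - s') c' * a (k - s') (k - l) c‖ ≤ 2 - d) (k : ℕ) :
    ‖X k‖ ≤ Y (len b q) B η l G k := by
  have hl1 : 1 ≤ l := by omega
  induction k using Nat.strong_induction_on with
  | _ k ih =>
    cases k with
    | zero => rw [hX.zero, Y_zero]; exact hF 0
    | succ k =>
      have hterm : ∀ i ∈ prs b (k + 1), ‖(q (k + 1 - i.1) i.2 : ℂ) * a (k + 1) i.1 i.2 * X i.1‖ ≤
          q (k + 1 - i.1) i.2 * Y (len b q) B η l G i.1 := by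
        intro i hi
        rw [prs, mem_sigma, mem_range] at hi
        rw [norm_mul, norm_mul, Complex.norm_real, Real.norm_eq_abs, abs_of_nonneg (hq _ _)]
        have h2 := hX.le (k + 1) i.1 i.2
        calc q (k + 1 - i.1) i.2 * ‖a (k + 1) i.1 i.2‖ * ‖X i.1‖ ≤ q (k + 1 - i.1) i.2 * 1 * Y (len b q) B η l G i.1 :=
              mul_le_mul (mul_le_mul_of_nonneg_left h2 (hq _ _)) (ih _ hi.1) (norm_nonneg _) (by have := hq (k + 1 - i.1) i.2; linarith)
          _ = _ := by rw [mul_one]
      rw [hX.succ', Y_succ' hl1]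
      by_cases hk : G (k + 1)
      · rw [if_pos hk]
        have hlk := hGl _ hk
        obtain ⟨n, hn⟩ : ∃ n, n = k + 1 - l := ⟨_, rfl⟩
        have hn1 : k + 1 - s = n + s' := by omega
        have hn2 : k + 1 - s' = n + s := by omega
        have hg := hgain _ hk
        rw [← hn, hn1, hn2] at hg
        rw [← hn]
        have hnG1 : ¬ G (n + s') := fun h => by
          have := hG _ _ h hk (by omega)
          omega
        have hnG2 : ¬ G (n + s) := fun h => by
          have := hG _ _ h hk (by omega)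
          omega
        have p1 := plain (η := η) hq hX hF hl1 (n + s' - 1) (by rw [Nat.sub_add_cancel (by omega)]; exact hnG1)
          (fun j hj => ih j (by omega)) n c' (by omega) (by
            have : n + s' - 1 + 1 - n = s' := by omega
            rw [this]; exact hc')
        have p2 := plain (η := η) hq hX hF hl1 (n + s - 1) (by rw [Nat.sub_add_cancel (by omega)]; exact hnG2)
          (fun j hj => ih j (by omega)) n c (by omega) (by
            have : n + s - 1 + 1 - n = s := by omega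
            rw [this]; exact hc)
        have e1 : n + s' - 1 + 1 = n + s' := by omega
        have e2 : n + s - 1 + 1 = n + s := by omega
        rw [e1, Nat.add_sub_cancel_left] at p1
        rw [e2, Nat.add_sub_cancel_left] at p2
        have hXn := ih n (by omega)
        have m1 : (⟨n + s', c⟩ : Σ _ : ℕ, ℕ) ∈ prs b (k + 1) := by
          rw [prs, mem_sigma, mem_range, mem_range]
          refine ⟨by simp only; omega, ?_⟩
          have : k + 1 - (n + s') = s := by omega
          simp only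
          rw [this]; exact hc
        have m2 : (⟨n + s, c'⟩ : Σ _ : ℕ, ℕ) ∈ prs b (k + 1) := by
          rw [prs, mem_sigma, mem_range, mem_range]
          refine ⟨by simp only; omega, ?_⟩
          have : k + 1 - (n + s) = s' := by omega
          simp only
          rw [this]; exact hc'
        have hne' : (⟨n + s', c⟩ : Σ _ : ℕ, ℕ) ≠ ⟨n + s, c'⟩ := by
          intro h
          rw [Sigma.mk.injEq] at h
          obtain ⟨h1, h2⟩ := h
          have h3 : c = c' := eq_of_heq h2
          have h4 : s = s' := by omega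
          subst h3
          subst h4
          exact hne rfl
        have key := norm_rest2 (prs b (k + 1)) (fun i => (q (k + 1 - i.1) i.2 : ℂ) * a (k + 1) i.1 i.2 * X i.1)
          (fun i => q (k + 1 - i.1) i.2 * Y (len b q) B η l G i.1) hterm _ _ m1 m2 hne' (η * Y (len b q) B η l G n) (by
            have f1 : k + 1 - (n + s') = s := by omega
            have f2 : k + 1 - (n + s) = s' := by omega
            simp only [f1, f2]
            obtain ⟨U, hU⟩ : ∃ U, U = q s c := ⟨_, rfl⟩
            obtain ⟨V, hV⟩ : ∃ V, V = q s' c' := ⟨_, rfl⟩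
            have hU0 : 0 ≤ U := by rw [hU]; exact hq _ _
            have hV0 : 0 ≤ V := by rw [hV]; exact hq _ _
            rw [← hU, ← hV] at hη ⊢
            rw [← hV] at p1
            rw [← hU] at p2
            obtain ⟨y, hy⟩ : ∃ y, y = Y (len b q) B η l G n := ⟨_, rfl⟩
            rw [← hy] at p1 p2 hXn ⊢
            have hy0 : 0 ≤ y := (norm_nonneg _).trans hXn
            have a1 := hX.le (k + 1) (n + s') c
            have a2 := hX.le (k + 1) (n + s) c'
            have id1 : (U : ℂ) * a (k + 1) (n + s') c * X (n + s') + (V : ℂ) * a (k + 1) (n + s) c' * X (n + s) =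
                (U : ℂ) * a (k + 1) (n + s') c * (X (n + s') - (V : ℂ) * a (n + s') n c' * X n) +
                (V : ℂ) * a (k + 1) (n + s) c' * (X (n + s) - (U : ℂ) * a (n + s) n c * X n) +
                ((U : ℂ) * (V : ℂ)) * (a (k + 1) (n + s') c * a (n + s') n c' + a (k + 1) (n + s) c' * a (n + s) n c) * X n := by ring
            rw [id1]
            refine (norm_add₃_le).trans ?_
            have b1 : ‖(U : ℂ) * a (k + 1) (n + s') c * (X (n + s') - (V : ℂ) * a (n + s') n c' * X n)‖ ≤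
                U * (Y (len b q) B η l G (n + s') - V * y) := by
              rw [norm_mul, norm_mul, Complex.norm_real, Real.norm_eq_abs, abs_of_nonneg hU0]
              calc _ ≤ U * 1 * (Y (len b q) B η l G (n + s') - V * y) :=
                    mul_le_mul (mul_le_mul_of_nonneg_left a1 hU0) p1 (norm_nonneg _) (by linarith)
                _ = _ := by rw [mul_one]
            have b2 : ‖(V : ℂ) * a (k + 1) (n + s) c' * (X (n + s) - (U : ℂ) * a (n + s) n c * X n)‖ ≤
                V * (Y (len b q) B η l G (n + s) - U * y) := by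
              rw [norm_mul, norm_mul, Complex.norm_real, Real.norm_eq_abs, abs_of_nonneg hV0]
              calc _ ≤ V * 1 * (Y (len b q) B η l G (n + s) - U * y) :=
                    mul_le_mul (mul_le_mul_of_nonneg_left a2 hV0) p2 (norm_nonneg _) (by linarith)
                _ = _ := by rw [mul_one]
            have b3 : ‖((U : ℂ) * (V : ℂ)) * (a (k + 1) (n + s') c * a (n + s') n c' + a (k + 1) (n + s) c' * a (n + s) n c) * X n‖ ≤
                (U * V) * (2 - d) * y := by
              rw [norm_mul, norm_mul, norm_mul, Complex.norm_real, Complex.norm_real, Real.norm_eq_abs, Real.norm_eq_abs,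
                abs_of_nonneg hU0, abs_of_nonneg hV0]
              exact mul_le_mul (mul_le_mul_of_nonneg_left hg (by positivity)) hXn (norm_nonneg _)
                (mul_nonneg (by positivity) (by linarith))
            have b4 : η * y ≤ d * (U * V) * y := mul_le_mul_of_nonneg_right hη hy0
            nlinarith)
        have h2 := hF (k + 1)
        refine (norm_add_le _ _).trans ?_
        linarith
      · rw [if_neg hk, sub_zero]
        refine (norm_add_le _ _).trans (add_le_add (hF _) ((norm_sum_le _ _).trans (sum_le_sum hterm)))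

end Pool.Agent.Run7.h672.CC
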