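import Pool.Agent.Run7.h672.CC.B

set_option autoImplicit false

/-! Concatenations of random words: the law of the integer, and the decay of multiplicative sums. -/

namespace Pool.Agent.Run7.h672.CC
open Finset

lemma cat_zero (b : ℕ) (q f : ℕ → ℕ → ℝ) (v : ℕ) : cat b q f 0 v = f 0 v := by
  rw [cat]

lemma cat_succ (b : ℕ) (q f : ℕ → ℕ → ℝ) (k v : ℕ) : cat b q f (k + 1) v =
    f (k + 1) v + ∑ j ∈ range (k + 1), q (k + 1 - j) (v / b ^ j) * cat b q f j (v % b ^ j) := by
  rw [cat, Fin.sum_univ_eq_sum_range (fun j => q (k + 1 - j) (v / b ^ j) * cat b q f j (v % b ^ j))]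

lemma cat_nonneg {b : ℕ} {q f : ℕ → ℕ → ℝ} (hq : ∀ s c, 0 ≤ q s c) (hf : ∀ s c, 0 ≤ f s c) (k : ℕ) : ∀ v, 0 ≤ cat b q f k v := by
  induction k using Nat.strong_induction_on with
  | _ k ih =>
    intro v
    cases k with
    | zero => rw [cat_zero]; exact hf _ _
    | succ k =>
      rw [cat_succ]
      exact add_nonneg (hf _ _) (sum_nonneg fun j hj => mul_nonneg (hq _ _) (ih j (by rw [mem_range] at hj; exact hj) _))

/-- digits and blocks -/
lemma sum_blocks {α : Type} [AddCommMonoid α] (m n : ℕ) (f : ℕ → α) :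
    ∑ w ∈ range (m * n), f w = ∑ a ∈ range m, ∑ w ∈ range n, f (a * n + w) := by
  induction m with
  | zero => simp
  | succ m ih =>
    rw [sum_range_succ, ← ih, Nat.succ_mul, sum_range_add]

/-- multiplicative sums satisfy the recursion -/
theorem cut_of (b : ℕ) (hb : 2 ≤ b) (q f : ℕ → ℕ → ℝ) (φ : ℕ → ℕ → ℂ) (a : ℕ → ℕ → ℕ → ℂ) (ha : ∀ k j c, ‖a k j c‖ ≤ 1)
    (h : ∀ k j c v, j < k → c < b ^ (k - j) → v < b ^ j → φ k (c * b ^ j + v) = a k j c * φ j v) :
    Cut b q (fun k => ∑ v ∈ range (b ^ k), (f k v : ℂ) * φ k v) (fun k => ∑ v ∈ range (b ^ k), (cat b q f k v : ℂ) * φ k v) a where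
  zero := by
    apply sum_congr rfl
    intro v _
    rw [cat_zero]
  le := ha
  succ k := by
    have e1 : ∑ v ∈ range (b ^ (k + 1)), (cat b q f (k + 1) v : ℂ) * φ (k + 1) v =
        ∑ v ∈ range (b ^ (k + 1)), (f (k + 1) v : ℂ) * φ (k + 1) v +
        ∑ j ∈ range (k + 1), ∑ v ∈ range (b ^ (k + 1)), (q (k + 1 - j) (v / b ^ j) : ℂ) * (cat b q f j (v % b ^ j) : ℂ) * φ (k + 1) v := by
      rw [sum_comm, ← sum_add_distrib]
      apply sum_congr rfl
      intro v _
      rw [cat_succ]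
      push_cast
      rw [add_mul, sum_mul]
    rw [e1]
    congr 1
    apply sum_congr rfl
    intro j hj
    rw [mem_range] at hj
    have e2 : b ^ (k + 1) = b ^ (k + 1 - j) * b ^ j := by rw [← pow_add]; congr 1; omega
    rw [e2, sum_blocks, sum_mul]
    apply sum_congr rfl
    intro c hc
    rw [mem_range] at hc
    rw [mul_sum]
    apply sum_congr rfl
    intro v hv
    rw [mem_range] at hv
    have hbj : 0 < b ^ j := by positivity
    have e3 : (c * b ^ j + v) / b ^ j = c := by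
      rw [mul_comm, Nat.mul_add_div hbj, Nat.div_eq_of_lt hv, add_zero]
    have e4 : (c * b ^ j + v) % b ^ j = v := by
      rw [mul_comm, Nat.mul_add_mod, Nat.mod_eq_of_lt hv]
    rw [e3, e4, h (k + 1) j c v hj hc hv]
    ring

/-- the total mass -/
noncomputable def tot (b : ℕ) (q f : ℕ → ℕ → ℝ) (k : ℕ) : ℝ := ∑ v ∈ range (b ^ k), cat b q f k v

lemma tot_nonneg {b : ℕ} {q f : ℕ → ℕ → ℝ} (hq : ∀ s c, 0 ≤ q s c) (hf : ∀ s c, 0 ≤ f s c) (k : ℕ) : 0 ≤ tot b q f k :=
  sum_nonneg fun v _ => cat_nonneg hq hf k v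

/-- the total mass satisfies the recursion -/
lemma tot_cut (b : ℕ) (hb : 2 ≤ b) (q f : ℕ → ℕ → ℝ) :
    Cut b q (fun k => ((∑ v ∈ range (b ^ k), f k v : ℝ) : ℂ)) (fun k => (tot b q f k : ℂ)) (fun _ _ _ => 1) := by
  have h := cut_of b hb q f (fun _ _ => 1) (fun _ _ _ => 1) (fun _ _ _ => by rw [norm_one]) (fun _ _ _ _ _ _ _ => by rw [one_mul])
  have e1 : (fun k => ((∑ v ∈ range (b ^ k), f k v : ℝ) : ℂ)) = fun k => ∑ v ∈ range (b ^ k), (f k v : ℂ) * 1 := by
    funext k
    push_cast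
    simp only [mul_one]
  have e2 : (fun k => (tot b q f k : ℂ)) = fun k => ∑ v ∈ range (b ^ k), (cat b q f k v : ℂ) * 1 := by
    funext k
    unfold tot
    push_cast
    simp only [mul_one]
  rw [e1, e2]
  exact h

lemma tot_zero (b : ℕ) (q f : ℕ → ℕ → ℝ) : tot b q f 0 = f 0 0 := by
  unfold tot
  rw [pow_zero, sum_range_one, cat_zero]

lemma tot_succ (b : ℕ) (hb : 2 ≤ b) (q f : ℕ → ℕ → ℝ) (k : ℕ) : tot b q f (k + 1) = ∑ v ∈ range (b ^ (k + 1)), f (k + 1) v +
    ∑ j ∈ range (k + 1), len b q (k + 1 - j) * tot b q f j := by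
  have h := (tot_cut b hb q f).succ k
  simp only [mul_one] at h
  unfold len
  exact_mod_cast h

/-- The rests: the total weight of the rests of length more than `k` decays exponentially. -/
structure Ends (b : ℕ) (f : ℕ → ℕ → ℝ) (w A : ℝ) : Prop where
  nonneg : ∀ s c, 0 ≤ f s c
  tail : ∃ T : ℕ → ℝ, (∀ k, 0 ≤ T k) ∧ (∀ k, ∑ v ∈ range (b ^ (k + 1)), f (k + 1) v = T k - T (k + 1)) ∧ 0 < T 0 + f 0 0 ∧
    ∀ k, T k ≤ A * (T 0 + f 0 0) / w ^ k

/-- the number of the places `j` with `j + L ≤ m` where `g` holds -/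
def act (g : ℕ → Prop) [DecidablePred g] (L m : ℕ) : ℕ := ((range m).filter fun j => j + L ≤ m ∧ g j).card

/-- thinning -/
lemma thin (g : ℕ → Prop) [DecidablePred g] (l N m : ℕ) (hl : 1 ≤ l) : ∃ r : ℕ,
    act g l m ≤ (l + N) * ((range (m + 1)).filter fun k => l + N ≤ k ∧ g (k - l) ∧ (k - l) % (l + N) = r).card + N := by
  classical
  obtain ⟨S, hS⟩ : ∃ S, S = (range m).filter fun j => N ≤ j ∧ j + l ≤ m ∧ g j := ⟨_, rfl⟩
  have h1 : act g l m ≤ S.card + N := by
    have h2 : (range m).filter (fun j => j + l ≤ m ∧ g j) ⊆ S ∪ range N := by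
      intro j hj
      rw [mem_filter, mem_range] at hj
      rw [mem_union, hS, mem_filter, mem_range, mem_range]
      by_cases hN : N ≤ j
      · exact Or.inl ⟨hj.1, hN, hj.2.1, hj.2.2⟩
      · right; omega
    have h3 := (card_le_card h2).trans (card_union_le _ _)
    rw [card_range] at h3
    exact h3
  have hlN : 0 < l + N := by omega
  have h4 : ∃ r ∈ range (l + N), S.card ≤ (l + N) * (S.filter fun j => j % (l + N) = r).card := by
    by_contra hcon
    push Not at hcon
    have h5 : S.card = ∑ r ∈ range (l + N), (S.filter fun j => j % (l + N) = r).card :=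
      card_eq_sum_card_fiberwise (fun j _ => by
        simp only [coe_range, Set.mem_Iio]
        exact Nat.mod_lt _ hlN)
    have h6 : ∑ r ∈ range (l + N), (l + N) * (S.filter fun j => j % (l + N) = r).card < ∑ _r ∈ range (l + N), S.card :=
      sum_lt_sum_of_nonempty ⟨0, mem_range.2 hlN⟩ hcon
    rw [← mul_sum, ← h5, sum_const, card_range, smul_eq_mul] at h6
    omega
  obtain ⟨r, _, h5⟩ := h4
  refine ⟨r, h1.trans (Nat.add_le_add_right (h5.trans (Nat.mul_le_mul_left _ ?_)) _)⟩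
  apply card_le_card_of_injOn (fun j => j + l)
  · intro j hj
    rw [Finset.mem_coe, mem_filter, hS, mem_filter, mem_range] at hj
    rw [Finset.mem_coe, mem_filter, mem_range]
    have : j + l - l = j := by omega
    simp only [this]
    exact ⟨by omega, by omega, hj.1.2.2.2, hj.2⟩
  · intro j _ j' _ h
    simpa using h

/-- the lengths of the words -/
lemma Words.getLen {b : ℕ} {q : ℕ → ℕ → ℝ} (hW : Words b q) : ∃ w M : ℝ, Len (len b q) w M := by
  obtain ⟨w, hw, hs⟩ := hW.expo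
  have hw0 : 0 < w := by linarith
  have hn : ∀ s, 0 ≤ len b q s := fun s => sum_nonneg fun c _ => hW.nonneg _ _
  have htail : ∀ m, Qt (len b q) m = ∑' s, len b q (s + (m + 1)) := by
    intro m
    have h1 := hW.sum.summable.sum_add_tsum_nat_add (m + 1)
    rw [hW.sum.tsum_eq] at h1
    unfold Qt
    linarith
  refine ⟨w, ∑' s, len b q s * w ^ s, ?_, hn, hw, tsum_nonneg fun s => mul_nonneg (hn s) (by positivity), ?_, ?_⟩
  · unfold Pool.Agent.Run7.h672.CC.len
    rw [pow_zero, sum_range_one, hW.zero]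
  · intro m
    rw [htail]
    exact tsum_nonneg fun s => hn _
  · intro m
    rw [htail, le_div_iff₀ (by positivity), ← tsum_mul_right]
    have h1 : Summable fun s => len b q (s + (m + 1)) * w ^ (s + (m + 1)) := (summable_nat_add_iff (f := fun s => len b q s * w ^ s) (m + 1)).2 hs
    have h2 : ∀ s, len b q (s + (m + 1)) * w ^ m ≤ len b q (s + (m + 1)) * w ^ (s + (m + 1)) := by
      intro s
      exact mul_le_mul_of_nonneg_left (pow_le_pow_right₀ hw.le (by omega)) (hn _)
    have h3 : Summable fun s => len b q (s + (m + 1)) * w ^ m :=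
      Summable.of_nonneg_of_le (fun s => mul_nonneg (hn _) (by positivity)) h2 h1
    refine (Summable.tsum_le_tsum h2 h3 h1).trans ?_
    have h4 := hs.sum_add_tsum_nat_add (m + 1)
    have h5 : 0 ≤ ∑ s ∈ range (m + 1), len b q s * w ^ s := sum_nonneg fun s _ => mul_nonneg (hn s) (by positivity)
    linarith

/-- the decay of multiplicative sums -/
theorem cut_bound {b : ℕ} {q : ℕ → ℕ → ℝ} (hW : Words b q) {w M : ℝ} (hL : Len (len b q) w M) (A : ℝ) (hA : 0 ≤ A)
    (s c s' c' : ℕ) (hc : c < b ^ s) (hc' : c' < b ^ s') (hqc : 0 < q s c) (hqc' : 0 < q s' c') (hne : c * b ^ s' + c' ≠ c' * b ^ s + c)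
    (d : ℝ) (hd0 : 0 < d) (hd : d ≤ 2) : ∃ (μ C : ℝ), 0 < μ ∧ μ < 1 ∧ 1 ≤ C ∧ ∀ f, Ends b f w A →
      (∀ k, 0 < tot b q f k → ∀ (F X : ℕ → ℂ) (a : ℕ → ℕ → ℕ → ℂ), Cut b q F X a → (∀ k, ‖F k‖ ≤ ∑ v ∈ range (b ^ k), f k v) →
      ∀ (g : ℕ → Prop) [DecidablePred g], (∀ k, s + s' ≤ k → g (k - (s + s')) →
        ‖a k (k - s) c * a (k - s) (k - (s + s')) c' + a k (k - s') c' * a (k - s') (k - (s + s')) c‖ ≤ 2 - d) →
      ‖X k‖ ≤ C * tot b q f k * μ ^ act g (s + s') k) ∧ ∃ N, ∀ k, N ≤ k → 0 < tot b q f k := by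
  classical
  have hb := hW.two
  have hw1 := hL.w1
  have hs1 : 1 ≤ s := by
    rcases Nat.eq_zero_or_pos s with h | h
    · subst h
      have : c = 0 := by simpa using hc
      subst this
      simp at hne
    · exact h
  have hs1' : 1 ≤ s' := by
    rcases Nat.eq_zero_or_pos s' with h | h
    · subst h
      have : c' = 0 := by simpa using hc'
      subst this
      simp at hne
    · exact h
  obtain ⟨n₀, hn₀⟩ := lens_of (len b q) (fun s => sum_nonneg fun c _ => hW.nonneg _ _) hW.lens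
  obtain ⟨η, hη⟩ : ∃ η, η = min (d * (q s c * q s' c')) (min (1 / 2) ((1 - 1 / w) / 2)) := ⟨_, rfl⟩
  have hw2 : 1 / w < 1 := by rw [div_lt_one (by linarith)]; exact hw1
  have hη0 : 0 < η := by
    rw [hη]
    refine lt_min (by positivity) (lt_min (by norm_num) (by linarith))
  have hη1 : η ≤ d * (q s c * q s' c') := by rw [hη]; exact min_le_left _ _
  have hη2 : η ≤ 1 / 2 := by rw [hη]; exact (min_le_right _ _).trans (min_le_left _ _)
  have hη3 : η ≤ (1 - 1 / w) / 2 := by rw [hη]; exact (min_le_right _ _).trans (min_le_right _ _)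
  have hηw : 1 < (1 - η) * w := by
    have h1 : (1 - (1 - 1 / w) / 2) * w ≤ (1 - η) * w := mul_le_mul_of_nonneg_right (by linarith) (by linarith)
    have h2 : (1 - (1 - 1 / w) / 2) * w = (w + 1) / 2 := by field_simp; ring
    linarith
  obtain ⟨N, κ, hκ0, hκ1, hN1, H1, H2⟩ := decay hL n₀ hn₀ η hη0 hηw (by linarith) A hA
  obtain ⟨ρ, hρ⟩ : ∃ ρ, ρ = 1 - η * κ := ⟨_, rfl⟩
  have hηκ : 0 < η * κ := by positivity
  have hηκ1 : η * κ ≤ 1 / 2 := by nlinarith
  obtain ⟨n, hn⟩ : ∃ n, n = s + s' + N := ⟨_, rfl⟩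
  have hnr : (1 : ℝ) ≤ n := by exact_mod_cast (by omega : 1 ≤ n)
  obtain ⟨μ, hμ⟩ : ∃ μ, μ = 1 - η * κ / n := ⟨_, rfl⟩
  have hx1 : η * κ / n ≤ η * κ := div_le_self hηκ.le hnr
  have hx0 : 0 < η * κ / n := by positivity
  have hμ0 : 0 < μ := by rw [hμ]; linarith
  have hμ1 : μ < 1 := by rw [hμ]; linarith
  have hμn : ρ ≤ μ ^ n := by
    have h1 := one_add_mul_le_pow (a := -(η * κ / n)) (by linarith) n
    have h2 : 1 + (n : ℝ) * -(η * κ / n) = ρ := by
      rw [hρ]
      field_simp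
      ring
    rw [h2] at h1
    rw [hμ, sub_eq_add_neg 1 (η * κ / n)]
    exact h1
  have hμN : 0 < μ ^ N := by positivity
  have hμN1 : μ ^ N ≤ 1 := pow_le_one₀ hμ0.le hμ1.le
  refine ⟨μ, 1 / (κ * μ ^ N), hμ0, hμ1, ?_, ?_⟩
  · rw [one_le_div (by positivity)]
    calc κ * μ ^ N ≤ 1 * 1 := mul_le_mul hκ1 hμN1 hμN.le zero_le_one
      _ = 1 := one_mul _
  intro f hf
  obtain ⟨hf0, T, hT0, hT1, hT2, hT3⟩ := hf
  obtain ⟨B, hB⟩ : ∃ B : ℕ → ℝ, B = fun k => ∑ v ∈ range (b ^ k), f k v := ⟨_, rfl⟩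
  have hB0 : ∀ k, 0 ≤ B k := fun k => by rw [hB]; exact sum_nonneg fun v _ => hf0 _ _
  have hB00 : B 0 = f 0 0 := by rw [hB]; simp
  have htot0 : ∀ k, 0 ≤ tot b q f k := tot_nonneg hW.nonneg hf0
  have hEn : ∀ y : ℕ → ℝ, y 0 = B 0 → En (len b q) T y 0 = T 0 + f 0 0 := by
    intro y hy
    unfold En
    rw [zero_add, sum_range_one, Nat.sub_self, Qt_zero hL, mul_one, hy, hB00]
  -- the total mass
  have hrecU : Rec (len b q) B T η 1 (fun _ => False) (tot b q f) := by
    refine ⟨?_, fun k => ?_, fun k => ?_, hB0, hT0, htot0⟩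
    · rw [tot_zero, hB00]
    · rw [tot_succ b hb, if_neg (fun h => h), sub_zero, hB]
    · rw [hB]; exact hT1 k
  have hEU := hEn (tot b q f) (by rw [tot_zero, hB00])
  have hlow := H2 B T (tot b q f) hrecU (fun k => by rw [hEU]; exact hT3 k)
  rw [hEU] at hlow
  refine ⟨?_, N, fun k hk => lt_of_lt_of_le (by positivity) (hlow k hk)⟩
  intro k hk F X a hX hF g _ hg
  by_cases hkN : N ≤ k
  · obtain ⟨r, hr⟩ := thin g (s + s') N k (by omega)
    rw [← hn] at hr
    obtain ⟨G, hG⟩ : ∃ G : ℕ → Prop, G = fun k => n ≤ k ∧ g (k - (s + s')) ∧ (k - (s + s')) % n = r := ⟨_, rfl⟩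
    have hGn : ∀ j, G j → n ≤ j := fun j hj => by rw [hG] at hj; exact hj.1
    have hGs : ∀ j j', G j → G j' → j < j' → j + n ≤ j' := by
      intro j j' h1 h2 h3
      rw [hG] at h1 h2
      obtain ⟨a1, _, a2⟩ := h1
      obtain ⟨b1, _, b2⟩ := h2
      have h4 : (j - (s + s')) % n = (j' - (s + s')) % n := by rw [a2, b2]
      have h5 : n ∣ (j' - (s + s')) - (j - (s + s')) := (Nat.modEq_iff_dvd' (by omega)).1 h4
      have h6 := Nat.le_of_dvd (by omega) h5
      omega
    have hdom : ∀ (F X : ℕ → ℂ) (a : ℕ → ℕ → ℕ → ℂ), Cut b q F X a → (∀ k, ‖F k‖ ≤ ∑ v ∈ range (b ^ k), f k v) →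
        (∀ k, s + s' ≤ k → g (k - (s + s')) →
        ‖a k (k - s) c * a (k - s) (k - (s + s')) c' + a k (k - s') c' * a (k - s') (k - (s + s')) c‖ ≤ 2 - d) →
        ∀ k, ‖X k‖ ≤ Y (len b q) B η (s + s') G k := by
      intro F X a hX hF hg
      exact dominate (q := q) hW.nonneg hX (fun k => by rw [hB]; exact hF k) s c s' c' hs1 hs1' hc hc' hne rfl
        (fun j j' h1 h2 h3 => by
          have := hGs j j' h1 h2 h3
          omega) (fun j h1 => by
          have := hGn j h1
          omega) d hd hη1 (fun k hk => by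
          have h1 := hGn k hk
          rw [hG] at hk
          exact hg k (by omega) hk.2.1)
    have hY0 : ∀ k, 0 ≤ Y (len b q) B η (s + s') G k := fun k => (norm_nonneg _).trans (hdom F X a hX hF hg k)
    have hrecY : Rec (len b q) B T η (s + s') G (Y (len b q) B η (s + s') G) := by
      refine ⟨Y_zero _ _ _ _ _, fun k => Y_succ _ _ _ _ (by omega) _ _, fun k => ?_, hB0, hT0, hY0⟩
      rw [hB]; exact hT1 k
    have hEY := hEn (Y (len b q) B η (s + s') G) (Y_zero _ _ _ _ _)
    have hsep : ∀ j j', G j → G j' → j < j' → j + (s + s' + N) ≤ j' := fun j j' h1 h2 h3 => by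
      have := hGs j j' h1 h2 h3
      omega
    have hstart : ∀ j, G j → s + s' + N ≤ j := fun j h1 => by
      have := hGn j h1
      omega
    have hT4 : ∀ k, T k ≤ A * En (len b q) T (Y (len b q) B η (s + s') G) 0 / w ^ k := fun k => by rw [hEY]; exact hT3 k
    have hss : 1 ≤ s + s' := by omega
    have h1 := H1 (s + s') G B T (Y (len b q) B η (s + s') G) hss hsep hstart hrecY hT4 k
    rw [hEY, ← hρ] at h1
    refine (hdom F X a hX hF hg k).trans (h1.trans ?_)
    have hcard : ((range (k + 1)).filter fun k => n ≤ k ∧ g (k - (s + s')) ∧ (k - (s + s')) % n = r).card =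
        ((range (k + 1)).filter G).card := by
      congr 1
      ext j
      rw [mem_filter, mem_filter, hG]
    rw [hcard] at hr
    obtain ⟨x, hx⟩ : ∃ x, x = ((range (k + 1)).filter G).card := ⟨_, rfl⟩
    rw [← hx] at hr ⊢
    have hρ0 : 0 ≤ ρ := by rw [hρ]; linarith
    have h2 : ρ ^ x * μ ^ N ≤ μ ^ act g (s + s') k := by
      calc ρ ^ x * μ ^ N ≤ (μ ^ n) ^ x * μ ^ N := mul_le_mul_of_nonneg_right (pow_le_pow_left₀ hρ0 hμn x) hμN.le
        _ = μ ^ (n * x + N) := by rw [← pow_mul, ← pow_add]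
        _ ≤ _ := pow_le_pow_of_le_one hμ0.le hμ1.le hr
    have h3 := hlow k hkN
    have h4 : 0 ≤ μ ^ act g (s + s') k := by positivity
    calc (T 0 + f 0 0) * ρ ^ x ≤ (tot b q f k / κ) * (μ ^ act g (s + s') k / μ ^ N) := by
          apply mul_le_mul _ _ (by positivity) (div_nonneg (htot0 k) hκ0.le)
          · rw [le_div_iff₀ hκ0]
            linarith
          · rw [le_div_iff₀ hμN]
            exact h2
      _ = _ := by ring
  · -- small lengths: the trivial bound
    have hUY : ∀ k, Y (len b q) B η 1 (fun _ => False) k = tot b q f k := by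
      intro k
      induction k using Nat.strong_induction_on with
      | _ k ih =>
        cases k with
        | zero => rw [Y_zero, tot_zero, hB00]
        | succ k =>
          rw [Y_succ _ _ _ _ le_rfl, tot_succ b hb, if_neg (fun h => h), sub_zero, hB]
          congr 1
          apply sum_congr rfl
          intro j hj
          rw [mem_range] at hj
          have := ih j hj
          rw [hB] at this
          rw [this]
    have h1 : ∀ k, ‖X k‖ ≤ Y (len b q) B η 1 (fun _ => False) k := by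
      intro k
      induction k using Nat.strong_induction_on with
      | _ k ih =>
        cases k with
        | zero => rw [hX.zero, Y_zero, hB]; exact hF 0
        | succ k =>
          rw [hX.succ', Y_succ' le_rfl, if_neg (fun h => h), sub_zero]
          refine (norm_add_le _ _).trans (add_le_add (by rw [hB]; exact hF _) ((norm_sum_le _ _).trans (sum_le_sum fun i hi => ?_)))
          rw [prs, mem_sigma, mem_range] at hi
          rw [norm_mul, norm_mul, Complex.norm_real, Real.norm_eq_abs, abs_of_nonneg (hW.nonneg _ _)]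
          have h2 := hX.le (k + 1) i.1 i.2
          calc q (k + 1 - i.1) i.2 * ‖a (k + 1) i.1 i.2‖ * ‖X i.1‖ ≤ q (k + 1 - i.1) i.2 * 1 * Y (len b q) B η 1 (fun _ => False) i.1 :=
                mul_le_mul (mul_le_mul_of_nonneg_left h2 (hW.nonneg _ _)) (ih _ hi.1) (norm_nonneg _)
                  (by have := hW.nonneg (k + 1 - i.1) i.2; linarith)
            _ = _ := by rw [mul_one]
    refine (h1 k).trans ?_
    rw [hUY]
    have h2 : μ ^ N ≤ μ ^ act g (s + s') k := by
      apply pow_le_pow_of_le_one hμ0.le hμ1.le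
      have : act g (s + s') k ≤ k := by
        unfold act
        exact (card_filter_le _ _).trans (by rw [card_range])
      omega
    have h3 : 1 ≤ 1 / (κ * μ ^ N) * μ ^ act g (s + s') k := by
      rw [one_div, inv_mul_eq_div, one_le_div (by positivity)]
      calc κ * μ ^ N ≤ 1 * μ ^ N := mul_le_mul_of_nonneg_right hκ1 hμN.le
        _ ≤ _ := by rw [one_mul]; exact h2
    calc tot b q f k = tot b q f k * 1 := (mul_one _).symm
      _ ≤ tot b q f k * (1 / (κ * μ ^ N) * μ ^ act g (s + s') k) := mul_le_mul_of_nonneg_left h3 (htot0 k)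
      _ = _ := by ring

end Pool.Agent.Run7.h672.CC
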