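import Pool.Agent.Run7.h672.CC.C

set_option autoImplicit false

/-! Concatenations of random words: the two laws. -/

namespace Pool.Agent.Run7.h672.CC
open Finset

lemma fix_ends (b : ℕ) (w A : ℝ) (hw : 0 < w) (hA : 0 ≤ A) : Ends b noRest w A := by
  refine ⟨fun s c => ?_, fun _ => 0, fun _ => le_rfl, fun k => ?_, ?_, fun k => ?_⟩
  · unfold noRest
    split_ifs <;> norm_num
  · rw [sub_zero]
    apply sum_eq_zero
    intro v _
    unfold noRest
    rw [if_neg (by omega)]
  · unfold noRest
    rw [if_pos rfl]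
    norm_num
  · unfold noRest
    rw [if_pos rfl]
    positivity

open Classical in
lemma free_term_sum (b : ℕ) (q : ℕ → ℕ → ℝ) (k s : ℕ) (hks : k < s) :
    ∑ v ∈ range (b ^ k), ∑ c ∈ range (b ^ s), (if c / b ^ (s - k) = v then q s c else 0) = len b q s := by
  rw [sum_comm]
  unfold len
  apply sum_congr rfl
  intro c hc
  rw [mem_range] at hc
  rw [sum_ite_eq (range (b ^ k)) (c / b ^ (s - k)) (fun _ => q s c), if_pos]
  rw [mem_range]
  apply Nat.div_lt_of_lt_mul
  rw [← pow_add]
  have : s - k + k = s := by omega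
  rw [this]
  exact hc

open Classical in
lemma free_term_le (b : ℕ) (q : ℕ → ℕ → ℝ) (hq : ∀ s c, 0 ≤ q s c) (k v s : ℕ) :
    0 ≤ (if k < s then ∑ c ∈ range (b ^ s), (if c / b ^ (s - k) = v then q s c else 0) else 0) ∧
    (if k < s then ∑ c ∈ range (b ^ s), (if c / b ^ (s - k) = v then q s c else 0) else 0) ≤ len b q s := by
  have h1 : 0 ≤ ∑ c ∈ range (b ^ s), (if c / b ^ (s - k) = v then q s c else 0) := by
    apply sum_nonneg
    intro c _
    split_ifs
    · exact hq _ _
    · exact le_rfl
  have h2 : ∑ c ∈ range (b ^ s), (if c / b ^ (s - k) = v then q s c else 0) ≤ len b q s := by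
    unfold len
    apply sum_le_sum
    intro c _
    split_ifs
    · exact le_rfl
    · exact hq _ _
  have h3 := h1.trans h2
  constructor
  · split_ifs
    · exact h1
    · exact le_rfl
  · split_ifs
    · exact h2
    · exact h3

lemma free_sum {b : ℕ} {q : ℕ → ℕ → ℝ} (hW : Words b q) (k : ℕ) : ∑ v ∈ range (b ^ k), cutWord b q k v = Qt (len b q) k := by
  classical
  have hs : Summable (len b q) := hW.sum.summable
  have hn : ∀ s, 0 ≤ len b q s := fun s => sum_nonneg fun c _ => hW.nonneg _ _
  unfold cutWord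
  rw [← Summable.tsum_finsetSum (fun v _ => Summable.of_nonneg_of_le (fun s => (free_term_le b q hW.nonneg k v s).1)
    (fun s => (free_term_le b q hW.nonneg k v s).2) hs)]
  have h1 : ∀ s, ∑ v ∈ range (b ^ k), (if k < s then ∑ c ∈ range (b ^ s), (if c / b ^ (s - k) = v then q s c else 0) else 0) =
      if k < s then len b q s else 0 := by
    intro s
    by_cases hks : k < s
    · simp only [if_pos hks]
      exact free_term_sum b q k s hks
    · simp only [if_neg hks, sum_const_zero]
  rw [tsum_congr h1]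
  have h2 : Summable fun s => if k < s then len b q s else 0 :=
    Summable.of_nonneg_of_le (fun s => by split_ifs; exacts [hn s, le_rfl]) (fun s => by split_ifs; exacts [le_rfl, hn s]) hs
  have h3 := h2.sum_add_tsum_nat_add (k + 1)
  have h4 : ∑ s ∈ range (k + 1), (if k < s then len b q s else 0) = 0 := by
    apply sum_eq_zero
    intro s hs
    rw [mem_range] at hs
    rw [if_neg (by omega)]
  have h5 : ∑' s, (if k < s + (k + 1) then len b q (s + (k + 1)) else 0) = ∑' s, len b q (s + (k + 1)) :=
    tsum_congr fun s => by rw [if_pos (by omega)]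
  have h6 := hs.sum_add_tsum_nat_add (k + 1)
  rw [hW.sum.tsum_eq] at h6
  rw [h4, zero_add, h5] at h3
  rw [← h3]
  unfold Qt
  linarith

lemma free_ends {b : ℕ} {q : ℕ → ℕ → ℝ} (hW : Words b q) {w M : ℝ} (hL : Len (len b q) w M) : Ends b (cutWord b q) w (M / (w - 1)) := by
  classical
  have hw := hL.w1
  have hw0 : 0 < w := by linarith
  have hM := hL.M0
  have hf0 : ∀ k v, 0 ≤ cutWord b q k v := fun k v => tsum_nonneg fun s => (free_term_le b q hW.nonneg k v s).1
  have h00 : cutWord b q 0 0 = 1 := by
    have h1 := free_sum hW 0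
    rw [pow_zero, sum_range_one, Qt_zero hL] at h1
    exact h1
  have hgeo : Summable fun i => M / w ^ i := by
    have h1 : Summable fun i : ℕ => (1 / w) ^ i := summable_geometric_of_lt_one (by positivity) (by rw [div_lt_one hw0]; exact hw)
    have h2 : (fun i => M / w ^ i) = fun i => M * (1 / w) ^ i := by
      funext i
      rw [one_div_pow]
      ring
    rw [h2]
    exact h1.mul_left M
  have hsQ : Summable (Qt (len b q)) := Summable.of_nonneg_of_le hL.tail0 hL.tail hgeo
  refine ⟨hf0, fun k => ∑' i, Qt (len b q) (i + (k + 1)), fun k => tsum_nonneg fun i => hL.tail0 _, fun k => ?_, ?_, fun k => ?_⟩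
  · rw [free_sum hW]
    have h1 : Summable fun i => Qt (len b q) (i + (k + 1)) := (summable_nat_add_iff (f := Qt (len b q)) (k + 1)).2 hsQ
    have h2 := h1.tsum_eq_zero_add
    simp only
    rw [h2, zero_add]
    have h3 : ∑' i, Qt (len b q) (i + 1 + (k + 1)) = ∑' i, Qt (len b q) (i + (k + 1 + 1)) :=
      tsum_congr fun i => by congr 1; ring
    rw [h3]
    ring
  · rw [h00]
    have : 0 ≤ ∑' i, Qt (len b q) (i + (0 + 1)) := tsum_nonneg fun i => hL.tail0 _
    linarith
  · have h1 : Summable fun i => Qt (len b q) (i + (k + 1)) := (summable_nat_add_iff (f := Qt (len b q)) (k + 1)).2 hsQ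
    have h2 : Summable fun i => M / w ^ (i + (k + 1)) := (summable_nat_add_iff (f := fun i => M / w ^ i) (k + 1)).2 hgeo
    have h3 : ∑' i, Qt (len b q) (i + (k + 1)) ≤ ∑' i, M / w ^ (i + (k + 1)) := Summable.tsum_le_tsum (fun i => hL.tail _) h1 h2
    have h4 : ∑' i, M / w ^ (i + (k + 1)) = M / (w - 1) / w ^ k := by
      have h5 : (fun i => M / w ^ (i + (k + 1))) = fun i => (M / w ^ (k + 1)) * (1 / w) ^ i := by
        funext i
        rw [one_div_pow, pow_add]
        field_simp
      rw [h5, tsum_mul_left, tsum_geometric_of_lt_one (by positivity) (by rw [div_lt_one hw0]; exact hw), pow_succ]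
      have : w - 1 ≠ 0 := by linarith
      field_simp
    rw [h00]
    have h6 : 0 ≤ ∑' i, Qt (len b q) (i + (0 + 1)) := tsum_nonneg fun i => hL.tail0 _
    have h7 : 0 ≤ M / (w - 1) := div_nonneg hM (by linarith)
    calc ∑' i, Qt (len b q) (i + (k + 1)) ≤ M / (w - 1) / w ^ k := by rw [← h4]; exact h3
      _ ≤ M / (w - 1) * (∑' i, Qt (len b q) (i + (0 + 1)) + 1) / w ^ k := by
          apply div_le_div_of_nonneg_right _ (by positivity)
          exact le_mul_of_one_le_right h7 (by linarith)

end Pool.Agent.Run7.h672.CC
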