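import Mathlib

set_option autoImplicit false

/-!
# The law of the concatenation of independent random words

Words in base `b` are sequences of digits `0, ..., b - 1`; a word is given by the number `s` of its digits and by the integer
`c < b ^ s` which they form (the first digit is the leading one). The word `(s, c)` followed by the word `(s', c')` is
`(s + s', c * b ^ s' + c')`.
-/

namespace Pool.Agent.Run7.h672.CC
open Finset

/-- the probability that the random word has `s` digits -/
noncomputable def len (b : ℕ) (q : ℕ → ℕ → ℝ) (s : ℕ) : ℝ := ∑ c ∈ range (b ^ s), q s c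

/-- The law of a random word in base `b ≥ 2`: `q s c` (`c < b ^ s`) is the probability that the word has `s` digits and that
these digits form the integer `c`. The words are not empty, the number of the digits has an exponential moment, no integer
`d ≥ 2` divides all the possible numbers of digits, and there are two words with a positive probability which do not commute.
(Nothing else is assumed: the set of the possible words may be an arbitrary language, finite or infinite.) -/
structure Words (b : ℕ) (q : ℕ → ℕ → ℝ) : Prop where
  two : 2 ≤ b
  nonneg : ∀ s c, 0 ≤ q s c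
  zero : q 0 0 = 0
  sum : HasSum (len b q) 1
  expo : ∃ w : ℝ, 1 < w ∧ Summable fun s => len b q s * w ^ s
  lens : ∀ d : ℕ, 2 ≤ d → ∃ s, 0 < len b q s ∧ ¬ d ∣ s
  comm : ∃ s c s' c' : ℕ, c < b ^ s ∧ c' < b ^ s' ∧ 0 < q s c ∧ 0 < q s' c' ∧ c * b ^ s' + c' ≠ c' * b ^ s + c

/-- The sum of `q ω_1 * ... * q ω_m * f ρ` over all the ways to write the word of the `k` digits of `v < b ^ k` as a
concatenation of words `ω_1, ..., ω_m` (`m ≥ 0`) and a rest `ρ`. (By recursion: `m = 0`, or the first word `ω_1` has
`k + 1 - j` digits and is followed by `j` digits.) -/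
noncomputable def cat (b : ℕ) (q f : ℕ → ℕ → ℝ) : ℕ → ℕ → ℝ
  | 0, v => f 0 v
  | k + 1, v => f (k + 1) v + ∑ j : Fin (k + 1), q (k + 1 - j) (v / b ^ (j : ℕ)) * cat b q f j (v % b ^ (j : ℕ))
termination_by k => k

/-- there is no rest -/
def noRest : ℕ → ℕ → ℝ := fun s _ => if s = 0 then 1 else 0

/-- The rest is the beginning of a word: the probability that a random word has more than `k` digits and that its first `k`
digits form `v`. -/
noncomputable def cutWord (b : ℕ) (q : ℕ → ℕ → ℝ) : ℕ → ℕ → ℝ := fun k v =>
  ∑' s, if k < s then ∑ c ∈ range (b ^ s), (if c / b ^ (s - k) = v then q s c else 0) else 0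

/-- Let `ω_1, ω_2, ...` be independent random words with the law `q`. `p` is the law of one of the following random integers
`v < b ^ k`: the `k` digits of `v` are those of `ω_1 ... ω_m`, conditioned on the event that there is `m` such that `ω_1 ... ω_m`
has `k` digits (`f = noRest`), or the first `k` digits of the infinite sequence `ω_1 ω_2 ...` (`f = cutWord b q`). -/
def WordLaw (b : ℕ) (q : ℕ → ℕ → ℝ) (k : ℕ) (p : ℕ → ℝ) : Prop :=
  ∃ f, (f = noRest ∨ f = cutWord b q) ∧ 0 < ∑ u ∈ range (b ^ k), cat b q f k u ∧
    p = fun v => cat b q f k v / ∑ u ∈ range (b ^ k), cat b q f k u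

end Pool.Agent.Run7.h672.CC
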