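import Pool.Agent.Run7.h672.CC.D
import Pool.Agent.N625.PT.B

set_option autoImplicit false

/-! Concatenations of random words: the exponential sums, and the beginnings. -/

namespace Pool.Agent.Run7.h672.CC
open Finset
open Pool.Agent.H807R2.Dav
open Pool.Agent.N625.PT (Gq actL)

variable {b : ℕ} {q : ℕ → ℕ → ℝ}

lemma wl_ex {k : ℕ} {p : ℕ → ℝ} (hp : WordLaw b q k p) :
    ∃ f, (f = noRest ∨ f = cutWord b q) ∧ 0 < tot b q f k ∧ p = fun v => cat b q f k v / tot b q f k := hp

lemma two_blocks (b L : ℕ) (c y : ℝ) (h : Gq b L c y) (A A' : ℕ) (hA : A < b ^ L) (hA' : A' < b ^ L) (hne : A ≠ A') :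
    ‖ee (A * y) + ee (A' * y)‖ ≤ 2 - c := by
  have key : ∀ A A' : ℕ, A < A' → A' < b ^ L → ‖ee (A * y) + ee (A' * y)‖ ≤ 2 - c := by
    intro A A' h1 h2
    have e1 : ee (A' * y) = ee (A * y) * ee (((A' - A : ℕ) : ℝ) * y) := by
      rw [← ee_add]
      congr 1
      rw [Nat.cast_sub h1.le]
      ring
    have e2 : ee (A * y) + ee (A' * y) = ee (A * y) * (1 + ee (((A' - A : ℕ) : ℝ) * y)) := by rw [e1]; ring
    rw [e2, norm_mul, norm_ee, one_mul]
    exact h (A' - A) (by omega) (by omega)
  rcases Nat.lt_or_gt_of_ne hne with h1 | h1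
  · exact key A A' h1 hA'
  · rw [add_comm]
    exact key A' A h1 hA

/-- the decay of the exponential sums and of the probabilities of the beginnings -/
theorem word_char (hW : Words b q) : ∃ L : ℕ, 1 ≤ L ∧ ∀ c : ℝ, 0 < c → c ≤ 1 → ∃ μ C : ℝ, 0 < μ ∧ μ < 1 ∧ 1 ≤ C ∧
    (∀ (k : ℕ) (p : ℕ → ℝ), WordLaw b q k p → ∀ (θ : ℝ) (g : ℕ → Prop) [DecidablePred g], (∀ j, g j → Gq b L c ((b : ℝ) ^ j * θ)) →
      ‖∑ v ∈ range (b ^ k), (p v : ℂ) * ee (v * θ)‖ ≤ C * μ ^ actL g L k) ∧
    (∀ (k : ℕ) (p : ℕ → ℝ), WordLaw b q k p → ∀ i ≤ k, ∀ P < b ^ (k - i),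
      ∑ v ∈ range (b ^ k), (if v / b ^ i = P then p v else 0) ≤ C * μ ^ (k - i)) := by
  classical
  obtain ⟨w, M, hL⟩ := hW.getLen
  obtain ⟨s, c₁, s', c₁', hc, hc', hq1, hq2, hne⟩ := hW.comm
  have hb := hW.two
  have hw := hL.w1
  have hw0 : 0 < w := by linarith
  have hA : 0 ≤ M / (w - 1) := div_nonneg hL.M0 (by linarith)
  have hends : ∀ f, (f = noRest ∨ f = cutWord b q) → Ends b f w (M / (w - 1)) := by
    rintro f (rfl | rfl)
    · exact fix_ends b w _ hw0 hA
    · exact free_ends hW hL
  have hs1 : 1 ≤ s + s' := by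
    by_contra hcon
    have h1 : s = 0 := by omega
    have h2 : s' = 0 := by omega
    subst h1
    subst h2
    simp only [pow_zero, Nat.lt_one_iff] at hc hc'
    rw [hc, hc'] at hne
    simp at hne
  refine ⟨s + s', hs1, fun c hc0 hc1 => ?_⟩
  obtain ⟨μ, C, hμ0, hμ1, hC, H⟩ := cut_bound hW hL _ hA s c₁ s' c₁' hc hc' hq1 hq2 hne c hc0 (by linarith)
  have hμL : 0 < μ ^ (s + s') := by positivity
  have hμL1 : μ ^ (s + s') ≤ 1 := pow_le_one₀ hμ0.le hμ1.le
  have hCC : C ≤ C / μ ^ (s + s') := by
    rw [le_div_iff₀ hμL]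
    nlinarith
  refine ⟨μ, C / μ ^ (s + s'), hμ0, hμ1, hC.trans hCC, ?_, ?_⟩
  · intro k p hp θ g _ hg
    obtain ⟨f, hf, hpos, rfl⟩ := wl_ex hp
    have hE := hends f hf
    have h1 := (H f hE).1 k hpos (fun k => ∑ v ∈ range (b ^ k), (f k v : ℂ) * ee (v * θ))
      (fun k => ∑ v ∈ range (b ^ k), (cat b q f k v : ℂ) * ee (v * θ)) (fun _ j c => ee (((c * b ^ j : ℕ) : ℝ) * θ))
      (cut_of b hb q f (fun _ v => ee (v * θ)) (fun _ j c => ee (((c * b ^ j : ℕ) : ℝ) * θ)) (fun _ _ _ => (norm_ee _).le)
        (fun k j c v _ _ _ => by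
          rw [← ee_add]
          congr 1
          push_cast
          ring))
      (fun k => by
        refine (norm_sum_le _ _).trans (le_of_eq ?_)
        apply sum_congr rfl
        intro v _
        rw [norm_mul, norm_ee, mul_one, Complex.norm_real, Real.norm_eq_abs, abs_of_nonneg (hE.nonneg _ _)])
      g (fun k hk hgk => by
        rw [← ee_add, ← ee_add]
        obtain ⟨n, hn⟩ : ∃ n, n = k - (s + s') := ⟨_, rfl⟩
        rw [← hn] at hgk ⊢
        have e1 : k - s = n + s' := by omega
        have e2 : k - s' = n + s := by omega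
        rw [e1, e2]
        have a1 : ((c₁ * b ^ (n + s') : ℕ) : ℝ) * θ + ((c₁' * b ^ n : ℕ) : ℝ) * θ = ((c₁ * b ^ s' + c₁' : ℕ) : ℝ) * ((b : ℝ) ^ n * θ) := by
          push_cast
          ring
        have a2 : ((c₁' * b ^ (n + s) : ℕ) : ℝ) * θ + ((c₁ * b ^ n : ℕ) : ℝ) * θ = ((c₁' * b ^ s + c₁ : ℕ) : ℝ) * ((b : ℝ) ^ n * θ) := by
          push_cast
          ring
        rw [a1, a2]
        refine two_blocks b (s + s') c _ (hg n hgk) _ _ ?_ ?_ hne
        · calc c₁ * b ^ s' + c₁' < c₁ * b ^ s' + b ^ s' := by omega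
            _ = (c₁ + 1) * b ^ s' := by ring
            _ ≤ b ^ s * b ^ s' := Nat.mul_le_mul_right _ (by omega)
            _ = _ := (pow_add _ _ _).symm
        · calc c₁' * b ^ s + c₁ < c₁' * b ^ s + b ^ s := by omega
            _ = (c₁' + 1) * b ^ s := by ring
            _ ≤ b ^ s' * b ^ s := Nat.mul_le_mul_right _ (by omega)
            _ = _ := by rw [← pow_add, add_comm s'])
    have e1 : ∑ v ∈ range (b ^ k), ((cat b q f k v / tot b q f k : ℝ) : ℂ) * ee (v * θ) =
        ((1 / tot b q f k : ℝ) : ℂ) * ∑ v ∈ range (b ^ k), (cat b q f k v : ℂ) * ee (v * θ) := by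
      rw [mul_sum]
      apply sum_congr rfl
      intro v _
      push_cast
      ring
    rw [e1, norm_mul, Complex.norm_real, Real.norm_eq_abs, abs_of_pos (by positivity)]
    have h2 : act g (s + s') k = actL g (s + s') k := rfl
    rw [h2] at h1
    have h3 : 0 ≤ μ ^ actL g (s + s') k := by positivity
    calc 1 / tot b q f k * ‖∑ v ∈ range (b ^ k), (cat b q f k v : ℂ) * ee (v * θ)‖ ≤
        1 / tot b q f k * (C * tot b q f k * μ ^ actL g (s + s') k) := mul_le_mul_of_nonneg_left h1 (by positivity)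
      _ = C * μ ^ actL g (s + s') k := by field_simp
      _ ≤ _ := mul_le_mul_of_nonneg_right hCC h3
  · intro k p hp i hik P hP
    obtain ⟨f, hf, hpos, rfl⟩ := wl_ex hp
    have hE := hends f hf
    have hb0 : ∀ j, 0 < b ^ j := fun j => by positivity
    obtain ⟨P', hP'⟩ : ∃ P', P' = P * b ^ i := ⟨_, rfl⟩
    obtain ⟨φ, hφ⟩ : ∃ φ : ℕ → ℕ → ℂ, φ = fun k v => if v / b ^ i = (P' % b ^ k) / b ^ i then 1 else 0 := ⟨_, rfl⟩
    obtain ⟨a, ha⟩ : ∃ a : ℕ → ℕ → ℕ → ℂ, a = fun k j c => if c / b ^ (i - j) = ((P' % b ^ k) / b ^ j) / b ^ (i - j) then 1 else 0 := ⟨_, rfl⟩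
    have ha1 : ∀ k j c, ‖a k j c‖ ≤ 1 := by
      intro k j c
      rw [ha]
      simp only
      split_ifs <;> simp
    have hmul : ∀ k j c v, j < k → c < b ^ (k - j) → v < b ^ j → φ k (c * b ^ j + v) = a k j c * φ j v := by
      intro k j c v hjk hc hv
      rw [hφ, ha]
      simp only
      obtain ⟨d, hd⟩ : ∃ d, d = (P' % b ^ k) / b ^ j := ⟨_, rfl⟩
      obtain ⟨x, hx⟩ : ∃ x, x = P' % b ^ j := ⟨_, rfl⟩
      have hxb : x < b ^ j := by rw [hx]; exact Nat.mod_lt _ (hb0 j)
      have hPk : P' % b ^ k = d * b ^ j + x := by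
        rw [hd, hx, ← Nat.mod_mod_of_dvd P' (pow_dvd_pow b hjk.le), mul_comm]
        exact (Nat.div_add_mod _ _).symm
      rw [← hd, ← hx, hPk]
      by_cases hij : i ≤ j
      · have e0 : i - j = 0 := by omega
        have e1 : ∀ u z, z < b ^ j → (u * b ^ j + z) / b ^ i = u * b ^ (j - i) + z / b ^ i := by
          intro u z _
          have : u * b ^ j = b ^ i * (u * b ^ (j - i)) := by
            have : b ^ j = b ^ i * b ^ (j - i) := by rw [← pow_add]; congr 1; omega
            rw [this]
            ring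
          rw [this, Nat.mul_add_div (hb0 i)]
        have e2 : ∀ z, z < b ^ j → z / b ^ i < b ^ (j - i) := by
          intro z hz
          apply Nat.div_lt_of_lt_mul
          rw [← pow_add]
          have : i + (j - i) = j := by omega
          rw [this]
          exact hz
        rw [e0, pow_zero, Nat.div_one, Nat.div_one, e1 c v hv, e1 d x hxb]
        have e3 := e2 v hv
        have e4 := e2 x hxb
        have e5 : (c * b ^ (j - i) + v / b ^ i = d * b ^ (j - i) + x / b ^ i) ↔ (c = d ∧ v / b ^ i = x / b ^ i) := by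
          constructor
          · intro h
            have h1 : (c * b ^ (j - i) + v / b ^ i) / b ^ (j - i) = (d * b ^ (j - i) + x / b ^ i) / b ^ (j - i) := by rw [h]
            rw [mul_comm c, mul_comm d, Nat.mul_add_div (hb0 _), Nat.mul_add_div (hb0 _), Nat.div_eq_of_lt e3, Nat.div_eq_of_lt e4,
              add_zero, add_zero] at h1
            subst h1
            exact ⟨rfl, by omega⟩
          · rintro ⟨h1, h2⟩
            rw [h1, h2]
        by_cases h1 : c = d
        · by_cases h2 : v / b ^ i = x / b ^ i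
          · rw [if_pos (e5.2 ⟨h1, h2⟩), if_pos h1, if_pos h2, mul_one]
          · rw [if_neg (fun h => h2 (e5.1 h).2), if_neg h2, mul_zero]
        · rw [if_neg (fun h => h1 (e5.1 h).1), if_neg h1, zero_mul]
      · push Not at hij
        have e1 : ∀ u z, z < b ^ j → (u * b ^ j + z) / b ^ i = u / b ^ (i - j) := by
          intro u z hz
          have : b ^ i = b ^ j * b ^ (i - j) := by rw [← pow_add]; congr 1; omega
          rw [this, ← Nat.div_div_eq_div_mul, mul_comm, Nat.mul_add_div (hb0 j), Nat.div_eq_of_lt hz, add_zero]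
        have e2 : ∀ z, z < b ^ j → z / b ^ i = 0 := by
          intro z hz
          exact Nat.div_eq_of_lt (hz.trans_le (Nat.pow_le_pow_right (by omega) hij.le))
        rw [e1 c v hv, e1 d x hxb, e2 v hv, e2 x hxb, if_pos rfl, mul_one]
    have h1 := (H f hE).1 k hpos (fun k => ∑ v ∈ range (b ^ k), (f k v : ℂ) * φ k v)
      (fun k => ∑ v ∈ range (b ^ k), (cat b q f k v : ℂ) * φ k v) a (cut_of b hb q f φ a ha1 hmul)
      (fun k => by
        refine (norm_sum_le _ _).trans (sum_le_sum fun v _ => ?_)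
        rw [norm_mul, Complex.norm_real, Real.norm_eq_abs, abs_of_nonneg (hE.nonneg _ _)]
        have : ‖φ k v‖ ≤ 1 := by
          rw [hφ]
          simp only
          split_ifs <;> simp
        exact mul_le_of_le_one_right (hE.nonneg _ _) this)
      (fun j => i ≤ j) (fun k hk hgk => by
        obtain ⟨n, hn⟩ : ∃ n, n = k - (s + s') := ⟨_, rfl⟩
        rw [← hn] at hgk ⊢
        have e1 : k - s = n + s' := by omega
        have e2 : k - s' = n + s := by omega
        rw [e1, e2]
        obtain ⟨x, hx⟩ : ∃ x, x = P' % b ^ n := ⟨_, rfl⟩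
        have hxb : x < b ^ n := by rw [hx]; exact Nat.mod_lt _ (hb0 n)
        have hs' : 1 ≤ s' ∧ 1 ≤ s := by
          constructor
          · rcases Nat.eq_zero_or_pos s' with h | h
            · subst h
              have : c₁' = 0 := by simpa using hc'
              subst this
              simp at hne
            · exact h
          · rcases Nat.eq_zero_or_pos s with h | h
            · subst h
              have : c₁ = 0 := by simpa using hc
              subst this
              simp at hne
            · exact h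
        have hφx : φ n x = 1 := by
          rw [hφ]
          simp only
          rw [if_pos (by rw [hx])]
        have m1 := hmul (n + s') n c₁' x (by omega) (by rw [Nat.add_sub_cancel_left]; exact hc') hxb
        have m2 := hmul (n + s) n c₁ x (by omega) (by rw [Nat.add_sub_cancel_left]; exact hc) hxb
        rw [hφx, mul_one] at m1 m2
        have b1 : c₁' * b ^ n + x < b ^ (n + s') := by
          calc c₁' * b ^ n + x < c₁' * b ^ n + b ^ n := by omega
            _ = (c₁' + 1) * b ^ n := by ring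
            _ ≤ b ^ s' * b ^ n := Nat.mul_le_mul_right _ (by omega)
            _ = _ := by rw [← pow_add, add_comm]
        have b2 : c₁ * b ^ n + x < b ^ (n + s) := by
          calc c₁ * b ^ n + x < c₁ * b ^ n + b ^ n := by omega
            _ = (c₁ + 1) * b ^ n := by ring
            _ ≤ b ^ s * b ^ n := Nat.mul_le_mul_right _ (by omega)
            _ = _ := by rw [← pow_add, add_comm]
        have m3 := hmul k (n + s') c₁ (c₁' * b ^ n + x) (by omega) (by
          have : k - (n + s') = s := by omega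
          rw [this]; exact hc) b1
        have m4 := hmul k (n + s) c₁' (c₁ * b ^ n + x) (by omega) (by
          have : k - (n + s) = s' := by omega
          rw [this]; exact hc') b2
        rw [m1] at m3
        rw [m2] at m4
        rw [← m3, ← m4]
        have f1 : c₁ * b ^ (n + s') + (c₁' * b ^ n + x) = (c₁ * b ^ s' + c₁') * b ^ n + x := by ring
        have f2 : c₁' * b ^ (n + s) + (c₁ * b ^ n + x) = (c₁' * b ^ s + c₁) * b ^ n + x := by ring
        rw [f1, f2, hφ]
        simp only
        have e3 : ∀ u, (u * b ^ n + x) / b ^ i = u * b ^ (n - i) + x / b ^ i := by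
          intro u
          have : u * b ^ n = b ^ i * (u * b ^ (n - i)) := by
            have : b ^ n = b ^ i * b ^ (n - i) := by rw [← pow_add]; congr 1; omega
            rw [this]
            ring
          rw [this, Nat.mul_add_div (hb0 i)]
        rw [e3, e3]
        have e4 : ¬ (((c₁ * b ^ s' + c₁') * b ^ (n - i) + x / b ^ i = P' % b ^ k / b ^ i) ∧
            ((c₁' * b ^ s + c₁) * b ^ (n - i) + x / b ^ i = P' % b ^ k / b ^ i)) := by
          rintro ⟨h1, h2⟩
          apply hne
          have h3 : (c₁ * b ^ s' + c₁') * b ^ (n - i) = (c₁' * b ^ s + c₁) * b ^ (n - i) := by omega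
          exact Nat.eq_of_mul_eq_mul_right (hb0 _) h3
        have e5 : (1 : ℝ) ≤ 2 - c := by linarith
        split_ifs with h1 h2
        · exact absurd ⟨h1, h2⟩ e4
        · rw [add_zero, norm_one]; exact e5
        · rw [zero_add, norm_one]; exact e5
        · rw [add_zero, norm_zero]; linarith)
    have hact : k - i ≤ act (fun j => i ≤ j) (s + s') k + (s + s') := by
      unfold act
      have h2 : Ico i (k + 1 - (s + s')) ⊆ (range k).filter fun j => j + (s + s') ≤ k ∧ (fun j => i ≤ j) j := by
        intro j hj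
        rw [mem_Ico] at hj
        rw [mem_filter, mem_range]
        omega
      have h3 := card_le_card h2
      rw [Nat.card_Ico] at h3
      omega
    have e1 : ∑ v ∈ range (b ^ k), (if v / b ^ i = P then cat b q f k v / tot b q f k else 0) =
        (1 / tot b q f k) * ∑ v ∈ range (b ^ k), (if v / b ^ i = P then cat b q f k v else 0) := by
      rw [mul_sum]
      apply sum_congr rfl
      intro v _
      split_ifs
      · ring
      · ring
    have e2 : ((∑ v ∈ range (b ^ k), (if v / b ^ i = P then cat b q f k v else 0) : ℝ) : ℂ) =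
        ∑ v ∈ range (b ^ k), (cat b q f k v : ℂ) * φ k v := by
      push_cast
      apply sum_congr rfl
      intro v _
      rw [hφ]
      simp only
      have h2 : P' % b ^ k / b ^ i = P := by
        rw [hP', Nat.mod_eq_of_lt, Nat.mul_div_cancel _ (hb0 i)]
        calc P * b ^ i < b ^ (k - i) * b ^ i := Nat.mul_lt_mul_of_pos_right hP (hb0 i)
          _ = b ^ k := by rw [← pow_add]; congr 1; omega
      rw [h2]
      split_ifs <;> simp
    have e3 : ∑ v ∈ range (b ^ k), (if v / b ^ i = P then cat b q f k v else 0) ≤ C * tot b q f k * μ ^ act (fun j => i ≤ j) (s + s') k := by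
      refine le_trans ?_ h1
      rw [← e2, Complex.norm_real]
      exact Real.le_norm_self _
    rw [e1]
    have h4 : μ ^ act (fun j => i ≤ j) (s + s') k ≤ μ ^ (k - i) / μ ^ (s + s') := by
      rw [le_div_iff₀ hμL, ← pow_add]
      exact pow_le_pow_of_le_one hμ0.le hμ1.le hact
    calc 1 / tot b q f k * ∑ v ∈ range (b ^ k), (if v / b ^ i = P then cat b q f k v else 0) ≤
        1 / tot b q f k * (C * tot b q f k * μ ^ act (fun j => i ≤ j) (s + s') k) := mul_le_mul_of_nonneg_left e3 (by positivity)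
      _ = C * μ ^ act (fun j => i ≤ j) (s + s') k := by field_simp
      _ ≤ C * (μ ^ (k - i) / μ ^ (s + s')) := mul_le_mul_of_nonneg_left h4 (by linarith)
      _ = _ := by ring

lemma law_nonneg (hW : Words b q) {k : ℕ} {p : ℕ → ℝ} (hp : WordLaw b q k p) : ∀ v, 0 ≤ p v := by
  classical
  obtain ⟨w, M, hL⟩ := hW.getLen
  obtain ⟨f, hf, hpos, rfl⟩ := wl_ex hp
  intro v
  have hf0 : ∀ s c, 0 ≤ f s c := by
    rcases hf with rfl | rfl
    · intro s c
      unfold noRest
      split_ifs <;> norm_num
    · exact (free_ends hW hL).nonneg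
  exact div_nonneg (cat_nonneg hW.nonneg hf0 k v) hpos.le

lemma law_sum {k : ℕ} {p : ℕ → ℝ} (hp : WordLaw b q k p) : ∑ v ∈ range (b ^ k), p v = 1 := by
  obtain ⟨f, hf, hpos, rfl⟩ := wl_ex hp
  simp only
  rw [← sum_div]
  exact div_self hpos.ne'

end Pool.Agent.Run7.h672.CC
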