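import Pool.Agent.Run7.h672.CC.F
import Pool.Agent.N625.PT.E
import Pool.Agent.N625.PT.F

set_option autoImplicit false

/-! Concatenations of random words: all the multiples have a thin large spectrum (the argument of `Pool.Agent.N625.PT.E`, with the
decay of the exponential sums proved here). -/

namespace Pool.Agent.Run7.h672.CC
open Finset
open Pool.Agent.H807R2.Dav
open Pool.Agent.W93.AU
open Pool.Agent.W93.DG
open Pool.Agent.Y885 (Thin Dense FewFar Far TLaw Spec thin_of)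
open Pool.Agent.H491R3.AM (gd_far dense_ico)
open Pool.Agent.N625.PT (Gq actL gq_of Mf Mf_pos TCls)

variable {b : ℕ} {q : ℕ → ℕ → ℝ}

open Classical in
/-- the exponential sums are small at the frequencies with many good positions -/
theorem char_good (hb : 2 ≤ b) {L : ℕ} (hDec : Dec b q L) (c : ℝ) (hc0 : 0 < c) (hc1 : c ≤ 1 / 4)
    (V : ℕ) : ∃ D K₁ : ℕ, ∀ K : ℕ, K₁ ≤ K → ∀ m, m ≤ K → ∀ p, WordLaw b q m p → ∀ θ : ℝ,
    D * (Nat.log b K + 1) ≤ ((range m).filter (fun j : ℕ => Gd b c ((b : ℝ) ^ j * ((((b ^ L).factorial : ℕ) : ℝ) * θ)))).card →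
    ‖∑ v ∈ range (b ^ m), (p v : ℂ) * ee (v * θ)‖ ≤ 1 / (K : ℝ) ^ V := by
  classical
  obtain ⟨M, hM⟩ : ∃ M, M = (b ^ L).factorial := ⟨_, rfl⟩
  have hM1 : (1 : ℝ) ≤ M := by rw [hM]; exact_mod_cast Nat.factorial_pos _
  obtain ⟨c', hc'⟩ : ∃ c', c' = c / (2 * (M : ℝ) ^ 2) := ⟨_, rfl⟩
  have hc'0 : 0 < c' := by rw [hc']; positivity
  have hc'c : c' ≤ c := by
    rw [hc']
    apply div_le_self hc0.le
    nlinarith
  have hbr : (0 : ℝ) < b := by exact_mod_cast (by omega : 0 < b)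
  obtain ⟨μ, C, hμ0, hμ1, hC, Hch, _⟩ := hDec c' hc'0 (by linarith)
  obtain ⟨D', hD'⟩ := exists_pow_lt_of_lt_one (show 0 < (1 / (b : ℝ)) ^ (V + 1) by positivity) hμ1
  obtain ⟨K₁, hK₁⟩ := exists_nat_ge C
  refine ⟨D' + L, K₁ + 1, fun K hK m hmK p hp θ ht => ?_⟩
  obtain ⟨Lg, hLg⟩ : ∃ Lg, Lg = Nat.log b K + 1 := ⟨_, rfl⟩
  have hLg1 : 1 ≤ Lg := by omega
  rw [← hLg] at ht
  obtain ⟨g, hg⟩ : ∃ g : ℕ → Prop, g = fun j => Gq b L c' ((b : ℝ) ^ j * θ) := ⟨_, rfl⟩
  have hact : ((range m).filter (fun j : ℕ => Gd b c ((b : ℝ) ^ j * ((((b ^ L).factorial : ℕ) : ℝ) * θ)))).card ≤ actL g L m + L := by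
    have h1 : (range m).filter (fun j : ℕ => Gd b c ((b : ℝ) ^ j * ((((b ^ L).factorial : ℕ) : ℝ) * θ))) ⊆
        ((range m).filter fun j => j + L ≤ m ∧ g j) ∪ Ico (m - L) m := by
      intro j hj
      rw [mem_filter, mem_range] at hj
      rw [mem_union, mem_filter, mem_range, mem_Ico]
      by_cases hjL : j + L ≤ m
      · left
        refine ⟨hj.1, hjL, ?_⟩
        rw [hg]
        simp only
        rw [hc', hM]
        apply gq_of b L hb c hc0.le (by linarith)
        have e1 : (((b ^ L).factorial : ℕ) : ℝ) * ((b : ℝ) ^ j * θ) = (b : ℝ) ^ j * ((((b ^ L).factorial : ℕ) : ℝ) * θ) := by ring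
        rw [e1]
        exact hj.2
      · right
        omega
    refine (card_le_card h1).trans ((card_union_le _ _).trans ?_)
    rw [Nat.card_Ico]
    unfold actL
    omega
  have hact2 : D' * Lg ≤ actL g L m := by
    have e2 : (D' + L) * Lg = D' * Lg + L * Lg := by ring
    have e3 : L * 1 ≤ L * Lg := Nat.mul_le_mul_left _ hLg1
    rw [e2] at ht
    omega
  have hZ := Hch m p hp θ g (fun j hj => by rw [hg] at hj; exact hj)
  have hK1 : 1 ≤ K := by omega
  have hKr : (1 : ℝ) ≤ K := by exact_mod_cast hK1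
  have h6 : μ ^ actL g L m ≤ 1 / (K : ℝ) ^ (V + 1) := by
    refine (pow_le_pow_of_le_one hμ0.le hμ1.le hact2).trans ?_
    rw [hLg]
    exact pow_log_le b hb μ hμ0.le _ D' hD'.le K hK1
  have h7 : C ≤ (K : ℝ) := hK₁.trans (by exact_mod_cast (by omega : K₁ ≤ K))
  calc _ ≤ C * μ ^ actL g L m := hZ
    _ ≤ (K : ℝ) * (1 / (K : ℝ) ^ (V + 1)) := mul_le_mul h7 h6 (by positivity) (by positivity)
    _ = 1 / (K : ℝ) ^ V := by
        rw [pow_add]
        field_simp

set_option maxHeartbeats 1000000 in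
/-- all the multiples of a random integer formed by random words have a thin large spectrum -/
theorem word_tlaw (hW : Words b q) {L : ℕ} (hDec : Dec b q L)
    (κκ : ℤ) (hκκ : κκ ≠ 0) (E : ℕ) (hE : 15 ≤ E) (W V : ℕ) : ∃ c m₀ : ℕ, ∀ m : ℕ, m₀ ≤ m → ∀ e : ℕ, (e : ℝ) ≤ W * Real.log m →
    ∀ h : ℕ, 1 ≤ h → Nat.log b (Mf b L κκ * h) ≤ e → ∀ p, WordLaw b q m p → ∀ cc : ℤ,
    TLaw b E c V (m + e) (range (b ^ m)) p (fun v : ℕ => (h : ℤ) * (cc + κκ * v)) := by
  classical
  have hb := hW.two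
  obtain ⟨κ', ε', hκ'0, hε0, hκ'eq, hthin⟩ := thin_of b b E hb (by omega) (by omega)
  have hBr : (2 : ℝ) ≤ b := by exact_mod_cast hb
  have hB0 : (0 : ℝ) < b := by linarith
  have hF1 : (1 : ℝ) ≤ (b.factorial : ℝ) := by exact_mod_cast b.factorial_pos
  have hκ'1 : κ' ≤ 1 / 4 := by
    rw [hκ'eq]
    apply one_div_le_one_div_of_le (by norm_num)
    nlinarith [mul_pos hB0 hB0]
  obtain ⟨cg, hcg⟩ : ∃ cg, cg = 4 * (κ' / (b.factorial : ℝ)) ^ 2 := ⟨_, rfl⟩
  have hcg0 : 0 < cg := by rw [hcg]; positivity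
  have hcg1 : cg ≤ 1 / 4 := by
    have e1 : κ' / (b.factorial : ℝ) ≤ 1 / 4 := (div_le_self hκ'0.le hF1).trans hκ'1
    have e2 : 0 ≤ κ' / (b.factorial : ℝ) := by positivity
    rw [hcg]
    nlinarith
  obtain ⟨D, K₁, hchar⟩ := char_good hb hDec cg hcg0 hcg1 V
  obtain ⟨c, K₂, hthin⟩ := hthin ((W : ℝ) + 2) ((3 * D : ℕ) : ℝ)
  refine ⟨c, K₂ + K₁ + 3, fun m hm e he h hh1 hh2 p hp cc => ?_⟩
  obtain ⟨K, hK⟩ : ∃ K, K = m + e := ⟨_, rfl⟩
  rw [← hK]
  obtain ⟨M, hM⟩ : ∃ M, M = (b ^ L).factorial := ⟨_, rfl⟩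
  have hM0 : 0 < M := by rw [hM]; exact Nat.factorial_pos _
  obtain ⟨a, ha⟩ : ∃ a, a = Mf b L κκ * h := ⟨_, rfl⟩
  rw [← ha] at hh2
  have ha0 : 0 < a := by
    rw [ha]
    exact Nat.mul_pos (Mf_pos b L κκ hκκ) hh1
  obtain ⟨ℓ, hℓ⟩ : ∃ ℓ, ℓ = Nat.log b a := ⟨_, rfl⟩
  rw [← hℓ] at hh2
  have hℓ1 : b ^ ℓ ≤ a := by rw [hℓ]; exact Nat.pow_log_le_self b (by omega)
  have hℓ2 : a < b ^ (ℓ + 1) := by rw [hℓ]; exact Nat.lt_pow_succ_log_self (by omega) a
  have hK3 : (3 : ℝ) ≤ K := by exact_mod_cast (by omega : 3 ≤ K)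
  have hlogK : 1 ≤ Real.log K := by
    rw [Real.le_log_iff_exp_le (by linarith)]
    have := Real.exp_one_lt_d9
    linarith
  refine ⟨fun v _ => law_nonneg hW hp v, (law_sum hp).le, ?_⟩
  refine hthin K (by omega) (Ico ℓ (ℓ + m)) (dense_ico E W K m e ℓ hE hK hh2 (by omega) he) _ ?_ ?_
  · intro t ht
    unfold Spec at ht
    rw [mem_filter, mem_range] at ht
    exact ht.1
  · intro T' hT'
    refine ⟨fun i => a * b ^ (i - ℓ), ?_, T', Subset.refl _, by omega, ?_⟩
    · intro j hj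
      rw [mem_Ico] at hj
      have e1 : b ^ ℓ * b ^ (j - ℓ) = b ^ j := by rw [← pow_add]; congr 1; omega
      have e2 : b ^ (ℓ + 1) * b ^ (j - ℓ) = b * b ^ j := by rw [← e1, pow_succ]; ring
      constructor
      · calc b ^ j = b ^ ℓ * b ^ (j - ℓ) := e1.symm
          _ ≤ a * b ^ (j - ℓ) := Nat.mul_le_mul_right _ hℓ1
          _ ≤ b * (a * b ^ (j - ℓ)) := Nat.le_mul_of_pos_left _ (by omega)
      · calc a * b ^ (j - ℓ) ≤ b ^ (ℓ + 1) * b ^ (j - ℓ) := Nat.mul_le_mul_right _ hℓ2.le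
          _ = b * b ^ j := e2
    · intro t ht
      have hts := hT' ht
      unfold Spec at hts
      rw [mem_filter, mem_range] at hts
      obtain ⟨_, hts2⟩ := hts
      obtain ⟨θ0, hθ0⟩ : ∃ θ0, θ0 = (t : ℝ) / ((b ^ (K + 1) : ℕ) : ℝ) := ⟨_, rfl⟩
      obtain ⟨θ, hθ⟩ : ∃ θ : ℝ, θ = (((h : ℤ) * κκ : ℤ) : ℝ) * θ0 := ⟨_, rfl⟩
      have hchr : ‖∑ v ∈ range (b ^ m), ((p v : ℝ) : ℂ) * ee ((((h : ℤ) * (cc + κκ * (v : ℕ)) : ℤ) : ℝ) * θ0)‖ =
          ‖∑ v ∈ range (b ^ m), (p v : ℂ) * ee (v * θ)‖ := by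
        have h2 : ∑ v ∈ range (b ^ m), ((p v : ℝ) : ℂ) * ee ((((h : ℤ) * (cc + κκ * (v : ℕ)) : ℤ) : ℝ) * θ0) =
            ee ((((h : ℤ) * cc : ℤ) : ℝ) * θ0) * ∑ v ∈ range (b ^ m), (p v : ℂ) * ee (v * θ) := by
          rw [mul_sum]
          apply sum_congr rfl
          intro v _
          have : ((((h : ℤ) * (cc + κκ * (v : ℕ)) : ℤ) : ℝ) * θ0) = (((h : ℤ) * cc : ℤ) : ℝ) * θ0 + v * θ := by
            rw [hθ]
            push_cast
            ring
          rw [this, ee_add]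
          ring
        rw [h2, norm_mul, norm_ee, one_mul]
      rw [← hθ0, hchr] at hts2
      -- the number of the good positions is small
      have hgc : ((range m).filter (fun j : ℕ => Gd b cg ((b : ℝ) ^ j * ((((b ^ L).factorial : ℕ) : ℝ) * θ)))).card <
          D * (Nat.log b K + 1) := by
        by_contra hcon
        push Not at hcon
        have h1 := hchar K (by omega) m (by omega) p hp θ hcon
        linarith
      -- all the far positions are good
      have hfar : ∀ J' ⊆ Ico ℓ (ℓ + m), ((J'.filter (fun i =>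
          Far κ' (fun i => a * b ^ (i - ℓ)) (fun t : ℕ => (t : ℝ) / ((b ^ (K + 1) : ℕ) : ℝ)) i t)).card : ℝ) ≤
          ((3 * D : ℕ) : ℝ) * Real.log K := by
        intro J' hJ'
        have h1 : (J'.filter (fun i => Far κ' (fun i => a * b ^ (i - ℓ)) (fun t : ℕ => (t : ℝ) / ((b ^ (K + 1) : ℕ) : ℝ)) i t)).card ≤
            ((range m).filter (fun j : ℕ => Gd b cg ((b : ℝ) ^ j * ((((b ^ L).factorial : ℕ) : ℝ) * θ)))).card := by
          apply card_le_card_of_injOn (fun i => i - ℓ)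
          · intro i hi
            rw [Finset.mem_coe, mem_filter] at hi
            obtain ⟨hi1, hi2⟩ := hi
            have hi3 := hJ' hi1
            rw [mem_Ico] at hi3
            rw [Finset.mem_coe, mem_filter, mem_range]
            dsimp only
            refine ⟨by omega, ?_⟩
            unfold Far at hi2
            dsimp only at hi2
            rw [← hθ0] at hi2
            rw [hcg]
            refine gd_far b hb κ' hκ'0.le _ _ ?_ hi2
            have ea : ((a * b ^ (i - ℓ) : ℕ) : ℝ) = (b.factorial : ℝ) * (M * |(κκ : ℝ)|) * h * (b : ℝ) ^ (i - ℓ) := by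
              rw [ha]
              unfold Mf
              rw [← hM]
              push_cast
              rw [Int.natAbs_mul, Int.natAbs_natCast]
              push_cast
              rw [Nat.cast_natAbs]
              push_cast
              ring
            rw [ea, ← hM, hθ]
            have e3 : (b.factorial : ℝ) * ((b : ℝ) ^ (i - ℓ) * ((M : ℝ) * ((((h : ℤ) * κκ : ℤ) : ℝ) * θ0))) =
                ((b.factorial : ℝ) * M * h * (b : ℝ) ^ (i - ℓ)) * (κκ * θ0) := by
              push_cast; ring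
            have e4 : (b.factorial : ℝ) * (M * |(κκ : ℝ)|) * h * (b : ℝ) ^ (i - ℓ) * θ0 =
                ((b.factorial : ℝ) * M * h * (b : ℝ) ^ (i - ℓ)) * (|(κκ : ℝ)| * θ0) := by ring
            rw [e3, e4]
            simp only [abs_mul, abs_abs]
          · intro i hi j hj hij
            rw [Finset.mem_coe, mem_filter] at hi hj
            have hi3 := hJ' hi.1
            have hj3 := hJ' hj.1
            rw [mem_Ico] at hi3 hj3
            simp only at hij
            omega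
        have h2 : (J'.filter (fun i => Far κ' (fun i => a * b ^ (i - ℓ)) (fun t : ℕ => (t : ℝ) / ((b ^ (K + 1) : ℕ) : ℝ)) i t)).card ≤
            D * (Nat.log b K + 1) := h1.trans hgc.le
        have h3 : (Nat.log b K : ℝ) ≤ 2 * Real.log K := by
          have g1 : (b : ℝ) ^ (Nat.log b K) ≤ K := by exact_mod_cast Nat.pow_log_le_self b (by omega)
          have g2 := Real.log_le_log (by positivity) g1
          rw [Real.log_pow] at g2
          have g3 : (1 : ℝ) / 2 ≤ Real.log b := by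
            have := Real.log_two_gt_d9
            have := Real.log_le_log (by norm_num) hBr
            linarith
          have g4 : (0 : ℝ) ≤ (Nat.log b K : ℝ) := Nat.cast_nonneg _
          nlinarith
        have h4 : ((J'.filter (fun i => Far κ' (fun i => a * b ^ (i - ℓ)) (fun t : ℕ => (t : ℝ) / ((b ^ (K + 1) : ℕ) : ℝ)) i t)).card : ℝ) ≤
            D * ((Nat.log b K : ℝ) + 1) := by exact_mod_cast h2
        refine h4.trans ?_
        push_cast
        have hD0 : (0 : ℝ) ≤ D := Nat.cast_nonneg _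
        nlinarith
      have hε1 : ∀ w : ℕ, 0 ≤ ε' * (w : ℝ) := fun w => by positivity
      constructor
      · intro w _
        have h1 := hfar ((Ico ℓ (ℓ + m)).filter (fun i => 0 ≤ i ∧ i < w)) (filter_subset _ _)
        rw [filter_filter] at h1
        have h2 : (Ico ℓ (ℓ + m)).filter (fun i => 0 ≤ i ∧ i < w ∧ Far κ' (fun i => a * b ^ (i - ℓ))
            (fun t : ℕ => (t : ℝ) / ((b ^ (K + 1) : ℕ) : ℝ)) i t) =
            (Ico ℓ (ℓ + m)).filter (fun i => (0 ≤ i ∧ i < w) ∧ Far κ' (fun i => a * b ^ (i - ℓ))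
            (fun t : ℕ => (t : ℝ) / ((b ^ (K + 1) : ℕ) : ℝ)) i t) := by
          apply filter_congr
          intro i _
          rw [and_assoc]
        rw [h2]
        have h3 := hε1 w
        linarith
      · intro w _
        have h1 := hfar ((Ico ℓ (ℓ + m)).filter (fun i => K + 1 - w ≤ i ∧ i < K + 1)) (filter_subset _ _)
        rw [filter_filter] at h1
        have h2 : (Ico ℓ (ℓ + m)).filter (fun i => K + 1 - w ≤ i ∧ i < K + 1 ∧ Far κ' (fun i => a * b ^ (i - ℓ))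
            (fun t : ℕ => (t : ℝ) / ((b ^ (K + 1) : ℕ) : ℝ)) i t) =
            (Ico ℓ (ℓ + m)).filter (fun i => (K + 1 - w ≤ i ∧ i < K + 1) ∧ Far κ' (fun i => a * b ^ (i - ℓ))
            (fun t : ℕ => (t : ℝ) / ((b ^ (K + 1) : ℕ) : ℝ)) i t) := by
          apply filter_congr
          intro i _
          rw [and_assoc]
        rw [h2]
        have h3 := hε1 w
        linarith

/-- the class, with the law for all the multiples -/
theorem word_tcls (hW : Words b q) (κ : ℤ) (hκ : κ ≠ 0) : TCls b κ (WordLaw b q) := by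
  obtain ⟨L, _, hD⟩ := exists_dec hW
  refine ⟨hW.two, hκ, fun k p hp => law_nonneg hW hp, fun k p hp => law_sum hp, Mf b L κ, Mf_pos b L κ hκ, fun W V => ?_⟩
  obtain ⟨c, m₀, h⟩ := word_tlaw hW hD κ hκ 15 le_rfl W V
  exact ⟨c, m₀, fun m hm e he h' hh1 hh2 p hp cc => h m hm e he h' hh1 hh2 p hp cc⟩

end Pool.Agent.Run7.h672.CC
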